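import Pool.Agent.Helper95.GB.Att
import Pool.Graph.R_pool_sql_team_seeded_63374d34.N772.FU.Hyp
import Pool.Graph.R_seed8.Y298.EX.Fin1
import Pool.Graph.R_seed8.Y620.EX.Sink

set_option autoImplicit false

/-! # Traps for the maps near `z ^ d + t`, `t` in the main component -/

namespace Pool.Agent.Helper95.GP

open Set Filter Metric MeasureTheory Topology
open N62a1eb23
open Pool.Agent.Helper95.GB (Att diff_fc)
open Pool.Agent.H712R2 (fc)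
open Pool.Agent.Y298.EX (OS)
open Pool.Agent.Y272.GA (FF dF differentiable_FF)

/-- a trap which catches the discs of radius `η₀` about zero -/
def TR (η₀ : ℝ) (F : ℂ → ℂ) : Prop := ∃ (ζ : ℂ) (ρ : ℝ) (J : ℕ), 0 < ρ ∧
  (∀ x ∈ closedBall ζ ρ, F x ∈ ball ζ ρ) ∧ ∀ w : ℂ, ‖w‖ ≤ η₀ → F^[J] w ∈ closedBall ζ ρ

theorem TR.mono {η η' : ℝ} {F : ℂ → ℂ} (h : TR η F) (h' : η' ≤ η) : TR η' F := by
  obtain ⟨ζ, ρ, J, h1, h2, h3⟩ := h
  exact ⟨ζ, ρ, J, h1, h2, fun w hw => h3 w (hw.trans h')⟩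

theorem fixed_of_att {d : ℕ} {t : ℂ} (h : Att d 1 t) :
    ∃ ζ : ℂ, fc d t ζ = ζ ∧ ‖deriv (fc d t) ζ‖ < 1 := by
  obtain ⟨-, z, h1, h2⟩ := h
  rw [Function.iterate_one] at h2
  exact ⟨z, Function.minimalPeriod_eq_one_iff_isFixedPt.1 h1, h2⟩

theorem trap_local {d : ℕ} (hd : 2 ≤ d) {t₀ : ℂ} (h : Att d 1 t₀) :
    ∃ R₀ η₀ : ℝ, 0 < R₀ ∧ 0 < η₀ ∧ ∀ t : ℂ, ‖t - t₀‖ ≤ η₀ → ∀ F : ℂ → ℂ,
      (∀ z : ℂ, ‖z‖ ≤ R₀ → ‖F z - (z ^ d + t)‖ ≤ η₀) → TR η₀ F := by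
  obtain ⟨ζ, hζ1, hζ2⟩ := fixed_of_att h
  obtain ⟨Q, hQ⟩ : ∃ Q, Q = fc d t₀ := ⟨_, rfl⟩
  have hQd : Differentiable ℂ Q := by
    rw [hQ]
    have := diff_fc d t₀ 1
    rwa [Function.iterate_one] at this
  rw [← hQ] at hζ1 hζ2
  obtain ⟨ρ, l, hρ, hl0, hl1, hcon⟩ := Pool.Agent.N772.FU.contr hQd (m := 1) (a := ζ)
    (by rw [Function.iterate_one]; exact hζ1) (by rw [Function.iterate_one]; exact hζ2)
  have hcon1 : ∀ x ∈ closedBall ζ ρ, ‖Q x - ζ‖ ≤ l * ρ := by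
    intro x hx
    have h1 := hcon 1 x hx
    rw [mul_one, Function.iterate_one, pow_one] at h1
    rw [mem_closedBall, dist_eq_norm] at hx
    exact h1.trans (by gcongr)
  have hcyc : IsAttractingCycle (Pool.Agent.W747.MB.f d t₀) 1 ζ := by
    refine ⟨one_pos, ?_, ?_, ?_⟩
    · show (fc d t₀)^[1] ζ = ζ
      rw [Function.iterate_one, ← hQ]
      exact hζ1
    · exact diff_fc d t₀ 1 ζ
    · show ‖deriv ((fc d t₀)^[1]) ζ‖ < 1
      rw [Function.iterate_one, ← hQ]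
      exact hζ2
  obtain ⟨L, hL⟩ := Pool.Agent.TH363.CD.crit_conv hd hcyc
  have hL' : Tendsto (fun k : ℕ => Q^[k] 0) atTop (𝓝 ζ) := by
    have e1 : (Pool.Agent.W747.MB.f d t₀)^[L] ζ = ζ := by
      show (fc d t₀)^[L] ζ = ζ
      rw [← hQ]
      exact Function.iterate_fixed hζ1 L
    rw [e1] at hL
    refine hL.congr fun k => ?_
    rw [one_mul, hQ]
    rfl
  obtain ⟨J, hJ⟩ := ((Metric.tendsto_nhds.1 hL') (ρ / 4) (by positivity)).exists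
  rw [dist_eq_norm] at hJ
  have hcont : Continuous (Q^[J]) := hQd.continuous.iterate _
  have h1 : ∀ᶠ w in 𝓝 (0 : ℂ), ‖Q^[J] w - ζ‖ < ρ / 4 :=
    ((hcont.sub continuous_const).norm.tendsto 0).eventually_lt_const hJ
  obtain ⟨r, hr, h2⟩ := Metric.eventually_nhds_iff.1 h1
  obtain ⟨R₁, η₁, hR₁, hη₁, H₁⟩ := Pool.Agent.N772.FU.iter_near hQd.continuous
    (isCompact_closedBall (0 : ℂ) (r / 2)) J (ρ / 4) (by positivity)
  obtain ⟨η, hη⟩ : ∃ η, η = min η₁ ((1 - l) * ρ / 2) := ⟨_, rfl⟩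
  have hl1' : 0 < 1 - l := by linarith
  have hη0 : 0 < η := by rw [hη]; positivity
  have hηa : η ≤ η₁ := by rw [hη]; exact min_le_left _ _
  have hηb : η ≤ (1 - l) * ρ / 2 := by rw [hη]; exact min_le_right _ _
  refine ⟨max R₁ (‖ζ‖ + ρ), min (η / 2) (r / 2), by positivity, by positivity, fun t ht F hF => ?_⟩
  have hFQ : ∀ z : ℂ, ‖z‖ ≤ max R₁ (‖ζ‖ + ρ) → ‖F z - Q z‖ ≤ η := by
    intro z hz
    have e1 : F z - Q z = (F z - (z ^ d + t)) + (t - t₀) := by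
      rw [hQ]
      unfold fc
      ring
    rw [e1]
    have e2 := hF z hz
    have e3 := norm_add_le (F z - (z ^ d + t)) (t - t₀)
    have e4 : min (η / 2) (r / 2) ≤ η / 2 := min_le_left _ _
    linarith
  refine ⟨ζ, ρ, J, hρ, ?_, ?_⟩
  · intro x hx
    have e1 := hcon1 x hx
    have e0 : ‖x‖ ≤ ‖ζ‖ + ρ := by
      rw [mem_closedBall, dist_eq_norm] at hx
      have := norm_le_norm_add_norm_sub' x ζ
      linarith
    have e2 := hFQ x (e0.trans (le_max_right _ _))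
    rw [mem_ball, dist_eq_norm]
    have e3 := norm_add_le (F x - Q x) (Q x - ζ)
    rw [sub_add_sub_cancel] at e3
    nlinarith
  · intro w hw
    have hwr : ‖w‖ ≤ r / 2 := hw.trans (min_le_right _ _)
    have e1 := (H₁ F (fun z hz => (hFQ z (hz.le.trans (le_max_left _ _))).trans hηa) w
      (mem_closedBall_zero_iff.2 hwr) J le_rfl).1
    have e2 : ‖Q^[J] w - ζ‖ < ρ / 4 := h2 (by
      rw [dist_zero_right]
      linarith)
    rw [mem_closedBall, dist_eq_norm]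
    have e3 := norm_add_le (F^[J] w - Q^[J] w) (Q^[J] w - ζ)
    rw [sub_add_sub_cancel] at e3
    linarith

/-- **Uniform traps.** -/
theorem trap_main {d : ℕ} (hd : 2 ≤ d) {K : Set ℂ} (hK : IsCompact K) (hKA : ∀ t ∈ K, Att d 1 t) :
    ∃ R₀ η₀ : ℝ, 0 < R₀ ∧ 0 < η₀ ∧ ∀ t ∈ K, ∀ F : ℂ → ℂ,
      (∀ z : ℂ, ‖z‖ ≤ R₀ → ‖F z - (z ^ d + t)‖ ≤ η₀) → TR η₀ F := by
  refine hK.induction_on (p := fun K => ∃ R₀ η₀ : ℝ, 0 < R₀ ∧ 0 < η₀ ∧ ∀ t ∈ K, ∀ F : ℂ → ℂ,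
      (∀ z : ℂ, ‖z‖ ≤ R₀ → ‖F z - (z ^ d + t)‖ ≤ η₀) → TR η₀ F) ?_ ?_ ?_ ?_
  · exact ⟨1, 1, one_pos, one_pos, fun t ht => absurd ht (notMem_empty t)⟩
  · rintro s t hst ⟨R₀, η₀, h1, h2, H⟩
    exact ⟨R₀, η₀, h1, h2, fun x hx => H x (hst hx)⟩
  · rintro s t ⟨R₁, η₁, h1, h2, H₁⟩ ⟨R₂, η₂, h3, h4, H₂⟩
    refine ⟨max R₁ R₂, min η₁ η₂, by positivity, by positivity, fun x hx F hF => ?_⟩
    rcases hx with hx | hx
    · exact (H₁ x hx F fun z hz => (hF z (hz.trans (le_max_left _ _))).trans (min_le_left _ _)).mono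
        (min_le_left _ _)
    · exact (H₂ x hx F fun z hz => (hF z (hz.trans (le_max_right _ _))).trans (min_le_right _ _)).mono
        (min_le_right _ _)
  · intro t₀ ht₀
    obtain ⟨R₀, η₀, h1, h2, H⟩ := trap_local hd (hKA t₀ ht₀)
    refine ⟨closedBall t₀ η₀, mem_nhdsWithin_of_mem_nhds (closedBall_mem_nhds t₀ h2), R₀, η₀, h1, h2,
      fun t ht F hF => H t ?_ F hF⟩
    rwa [mem_closedBall, dist_eq_norm] at ht

/-- **One sink.** -/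
theorem os_of {d : ℕ} {B : Fin (d + 1) → ℂ} {μ : ℂ} {n : ℕ} {η₀ : ℝ} (hμ : μ ≠ 0) (hn : 0 < n)
    (hT : TR η₀ fun z => (FF d B)^[n] (μ * z) / μ)
    (hcr : ∀ ω : ℂ, dF d B ω = 0 → ‖ω‖ ≤ η₀ * ‖μ‖) : B ∈ OS d := by
  obtain ⟨ζ, ρ, J, hρ, h1, h2⟩ := hT
  obtain ⟨g, hg⟩ : ∃ g, g = FF d B := ⟨_, rfl⟩
  obtain ⟨F, hF⟩ : ∃ F : ℂ → ℂ, F = fun z => (FF d B)^[n] (μ * z) / μ := ⟨_, rfl⟩
  rw [← hF] at h1 h2
  have hμ0 : 0 < ‖μ‖ := norm_pos_iff.2 hμ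
  have hFg : ∀ z, g^[n] (μ * z) = μ * F z := by
    intro z
    rw [hF, hg]
    exact (mul_div_cancel₀ _ hμ).symm
  obtain ⟨N, rfl⟩ : ∃ N, n = N + 1 := ⟨n - 1, by omega⟩
  have hrep : ∀ z ∈ closedBall (μ * ζ) (‖μ‖ * ρ), ∃ x ∈ closedBall ζ ρ, z = μ * x := by
    intro z hz
    refine ⟨z / μ, ?_, by rw [mul_div_cancel₀ _ hμ]⟩
    rw [mem_closedBall, dist_eq_norm] at hz ⊢
    have e1 : z - μ * ζ = μ * (z / μ - ζ) := by
      rw [mul_sub, mul_div_cancel₀ _ hμ]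
    rw [e1, norm_mul] at hz
    exact le_of_mul_le_mul_left hz hμ0
  obtain ⟨x, -, hx1, hx2, hx3⟩ := Pool.Agent.Y620.EX.t_sink g (μ * ζ) (‖μ‖ * ρ) N
    (by rw [hg]; exact differentiable_FF B) (by positivity) (by
      intro z hz
      obtain ⟨x, hx, rfl⟩ := hrep z hz
      rw [hFg, mem_ball, dist_eq_norm, ← mul_sub, norm_mul]
      have := h1 x hx
      rw [mem_ball, dist_eq_norm] at this
      gcongr)
  rw [hg] at hx1 hx2
  refine ⟨N + 1, x, hn, hx1, hx2, fun ω hω => ?_⟩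
  have hit : ∀ (k : ℕ) (z : ℂ), g^[(N + 1) * k] (μ * z) = μ * F^[k] z := by
    intro k
    induction k with
    | zero => intro z; rfl
    | succ k ih =>
      intro z
      rw [show (N + 1) * (k + 1) = (N + 1) + (N + 1) * k by ring, Function.iterate_add_apply, ih,
        hFg, Function.iterate_succ_apply']
  have h3 : g^[(N + 1) * J] ω ∈ closedBall (μ * ζ) (‖μ‖ * ρ) := by
    have e1 : ω = μ * (ω / μ) := (mul_div_cancel₀ _ hμ).symm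
    rw [e1, hit, mem_closedBall, dist_eq_norm, ← mul_sub, norm_mul]
    have e2 := h2 (ω / μ) (by
      rw [norm_div, div_le_iff₀ hμ0]
      exact hcr ω hω)
    rw [mem_closedBall, dist_eq_norm] at e2
    gcongr
  have h4 := hx3 _ h3
  have h5 : Tendsto (fun k : ℕ => g^[(N + 1) * (k + J)] ω) atTop (𝓝 x) := by
    refine h4.congr fun k => ?_
    rw [mul_add, Function.iterate_add_apply]
  rw [hg] at h5
  exact (tendsto_add_atTop_iff_nat (f := fun k : ℕ => (FF d B)^[(N + 1) * k] ω) J).1 h5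

end Pool.Agent.Helper95.GP
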