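import Pool.Agent.Helper95.GP.Lead
import Pool.Agent.Helper95.GP.Trap
import Pool.Agent.Helper95.GB.Thin

set_option autoImplicit false

/-! # Boundary parameters of the Multibrot set at prescribed positions of the copies -/

namespace Pool.Agent.Helper95.GP

open Set Filter Metric MeasureTheory Topology
open N62a1eb23
open Pool.Agent.Helper95.GB (Att Hyp diff_fc att_of_cycle att_const att_unique hyp_sub two_centres)
open Pool.Agent.H712R2 (fc P isCompact_multibrot)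
open Pool.Agent.Y298.EX (OS)
open Pool.Agent.Y272.GA (FF dF differentiable_FF)

theorem FF_zero {d : ℕ} (hd : 2 ≤ d) (k : ℂ) : FF d (Fin.cons k 0) = fc d k := by
  funext z
  have h0 : ∀ i, xc (0 : Fin d → ℂ) i = 0 := by
    intro i
    apply norm_le_zero_iff.1
    have := xc_norm (0 : Fin d → ℂ) i
    rwa [norm_zero] at this
  rw [FF_cons hd]
  simp only [h0]
  unfold fc
  simp

theorem copy_zero {d : ℕ} (hd : 2 ≤ d) {C R : ℝ} (hR : 0 < R) {n : ℕ} {c m l : ℂ}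
    (h : CopyP d C R n c m l) {t z : ℂ} (ht : ‖t‖ ≤ R) (hz : ‖z‖ ≤ R) :
    ‖(fc d (c + l * t))^[n] (m * z) / m - (z ^ d + t)‖ ≤ 1 / R := by
  obtain ⟨hm, -, -, -, H⟩ := h
  have hm0 : 0 < ‖m‖ := norm_pos_iff.2 hm
  obtain ⟨κ, b, h1, -, h2, h3⟩ := H 0 (by positivity) 0 (by simp)
  rw [mul_zero] at h1 h2
  have e1 : κ = 1 := by
    rw [← sub_eq_zero]
    exact norm_le_zero_iff.1 h1
  have e2 : b = 0 := norm_le_zero_iff.1 h2
  have h4 := h3 t z ht hz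
  rw [e1, e2, FF_zero hd, one_mul, one_mul, zero_add] at h4
  have e3 : (fc d (c + l * t))^[n] (m * z) / m - (z ^ d + t) =
      ((fc d (c + l * t))^[n] (m * z) - m * (z ^ d + t)) / m := by
    field_simp
  rw [e3, norm_div, div_le_iff₀ hm0, mul_comm (1 / R)]
  exact h4

/-- a trap of the renormalised map gives a sink -/
theorem sink_of {g : ℂ → ℂ} (hg : Differentiable ℂ g) {μ : ℂ} {n : ℕ} (hμ : μ ≠ 0) (hn : 0 < n)
    {p : ℕ} (hp : 0 < p) {w : ℂ} {ρ : ℝ} (hρ : 0 < ρ)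
    (h1 : ∀ x ∈ closedBall w ρ, (fun z => g^[n] (μ * z) / μ)^[p] x ∈ ball w ρ) :
    ∃ x' ∈ closedBall w ρ, g^[n * p] (μ * x') = μ * x' ∧ ‖deriv (g^[n * p]) (μ * x')‖ < 1 := by
  obtain ⟨F, hF⟩ : ∃ F : ℂ → ℂ, F = fun z => g^[n] (μ * z) / μ := ⟨_, rfl⟩
  rw [← hF] at h1
  have hμ0 : 0 < ‖μ‖ := norm_pos_iff.2 hμ
  have hFg : ∀ z, g^[n] (μ * z) = μ * F z := by
    intro z
    rw [hF]
    exact (mul_div_cancel₀ _ hμ).symm
  have hit : ∀ (k : ℕ) (z : ℂ), g^[n * k] (μ * z) = μ * F^[k] z := by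
    intro k
    induction k with
    | zero => intro z; rfl
    | succ k ih =>
      intro z
      rw [show n * (k + 1) = n + n * k by ring, Function.iterate_add_apply, ih, hFg,
        Function.iterate_succ_apply']
  have hnp : 0 < n * p := by positivity
  obtain ⟨N, hN⟩ : ∃ N, n * p = N + 1 := ⟨n * p - 1, by omega⟩
  have hrep : ∀ z ∈ closedBall (μ * w) (‖μ‖ * ρ), ∃ x ∈ closedBall w ρ, z = μ * x := by
    intro z hz
    refine ⟨z / μ, ?_, by rw [mul_div_cancel₀ _ hμ]⟩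
    rw [mem_closedBall, dist_eq_norm] at hz ⊢
    have e1 : z - μ * w = μ * (z / μ - w) := by
      rw [mul_sub, mul_div_cancel₀ _ hμ]
    rw [e1, norm_mul] at hz
    exact le_of_mul_le_mul_left hz hμ0
  obtain ⟨x, hx, hx1, hx2, -⟩ := Pool.Agent.Y620.EX.t_sink g (μ * w) (‖μ‖ * ρ) N
    hg (by positivity) (by
      intro z hz
      obtain ⟨x, hx, rfl⟩ := hrep z hz
      rw [← hN, hit, mem_ball, dist_eq_norm, ← mul_sub, norm_mul]
      have := h1 x hx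
      rw [mem_ball, dist_eq_norm] at this
      gcongr)
  obtain ⟨x', hx', rfl⟩ := hrep x (ball_subset_closedBall hx)
  rw [← hN] at hx1 hx2
  exact ⟨x', hx', hx1, hx2⟩

/-- a cycle of period at least two persists as such -/
theorem per_local {d : ℕ} {t₂ : ℂ} {p : ℕ} (hp : 2 ≤ p) (h : Att d p t₂) :
    ∃ R₀ η₀ : ℝ, 0 < R₀ ∧ 0 < η₀ ∧ ∀ F : ℂ → ℂ,
      (∀ z : ℂ, ‖z‖ ≤ R₀ → ‖F z - (z ^ d + t₂)‖ ≤ η₀) → ∃ (w : ℂ) (ρ : ℝ), 0 < ρ ∧
        (∀ x ∈ closedBall w ρ, F^[p] x ∈ ball w ρ) ∧ ∀ x ∈ closedBall w ρ, F x ≠ x := by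
  obtain ⟨-, w, hw1, hw2⟩ := h
  obtain ⟨Q, hQ⟩ : ∃ Q, Q = fc d t₂ := ⟨_, rfl⟩
  have hQd : Differentiable ℂ Q := by
    rw [hQ]
    have := diff_fc d t₂ 1
    rwa [Function.iterate_one] at this
  rw [← hQ] at hw1 hw2
  have hfix : Q^[p] w = w := by
    rw [← hw1]
    exact Function.iterate_minimalPeriod
  have hne : Q w ≠ w := by
    intro h0
    have := Function.minimalPeriod_eq_one_iff_isFixedPt.2 h0
    omega
  obtain ⟨ρ, l, hρ, hl0, hl1, hcon⟩ := Pool.Agent.N772.FU.contr hQd hfix hw2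
  obtain ⟨δ, hδ⟩ : ∃ δ, δ = ‖Q w - w‖ := ⟨_, rfl⟩
  have hδ0 : 0 < δ := by rw [hδ]; exact norm_pos_iff.2 (sub_ne_zero.2 hne)
  have h1 : ∀ᶠ x in 𝓝 w, δ / 2 < ‖Q x - x‖ := by
    have hc : Continuous fun x => ‖Q x - x‖ := (hQd.continuous.sub continuous_id).norm
    exact (hc.tendsto w).eventually_const_lt (by rw [← hδ]; linarith)
  obtain ⟨r, hr, h2⟩ := Metric.eventually_nhds_iff.1 h1
  obtain ⟨ρ', hρ'⟩ : ∃ ρ', ρ' = min ρ (r / 2) := ⟨_, rfl⟩
  have hρ'0 : 0 < ρ' := by rw [hρ']; positivity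
  have hρ'ρ : ρ' ≤ ρ := by rw [hρ']; exact min_le_left _ _
  have hρ'r : ρ' ≤ r / 2 := by rw [hρ']; exact min_le_right _ _
  have hl1' : 0 < 1 - l := by linarith
  obtain ⟨R₁, η₁, hR₁, hη₁, H₁⟩ := Pool.Agent.N772.FU.iter_near hQd.continuous
    (isCompact_closedBall w ρ') p ((1 - l) * ρ' / 2) (by positivity)
  refine ⟨max R₁ (‖w‖ + ρ'), min η₁ (δ / 4), by positivity, by positivity, fun F hF =>
    ⟨w, ρ', hρ'0, ?_, ?_⟩⟩
  · intro x hx
    have e1 := (H₁ F (fun z hz => (hF z (hz.le.trans (le_max_left _ _))).trans (min_le_left _ _)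
      |> fun h => by rw [hQ]; exact h) x hx p le_rfl).1
    have e2 := hcon 1 x (closedBall_subset_closedBall hρ'ρ hx)
    rw [mul_one, pow_one] at e2
    rw [mem_closedBall, dist_eq_norm] at hx
    have e3 : l * ‖x - w‖ ≤ l * ρ' := by gcongr
    rw [mem_ball, dist_eq_norm]
    have e4 := norm_add_le (F^[p] x - Q^[p] x) (Q^[p] x - w)
    rw [sub_add_sub_cancel] at e4
    nlinarith
  · intro x hx h0
    have hxr : dist x w < r := by
      rw [mem_closedBall] at hx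
      linarith
    have e1 := h2 hxr
    have e0 : ‖x‖ ≤ ‖w‖ + ρ' := by
      rw [mem_closedBall, dist_eq_norm] at hx
      have := norm_le_norm_add_norm_sub' x w
      linarith
    have e2 := (hF x (e0.trans (le_max_right _ _))).trans (min_le_right _ _)
    rw [h0] at e2
    have e3 : Q x - x = -(x - (x ^ d + t₂)) := by
      rw [hQ]
      unfold fc
      ring
    rw [e3, norm_neg] at e1
    linarith

theorem bdry {d : ℕ} (hd : 2 ≤ d) {ts : ℂ} (hf : ts ∈ frontier (multibrotSet d))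
    (hA : ∀ τ : ℝ, 0 < τ → ∃ t₁ : ℂ, Att d 1 t₁ ∧ ‖t₁ - ts‖ < τ) {τ : ℝ} (hτ : 0 < τ) :
    ∃ R₁ : ℝ, 1 ≤ R₁ ∧ ∀ R : ℝ, R₁ ≤ R → ∀ (C : ℝ) (n : ℕ) (c m l : ℂ), 0 < n →
      CopyP d C R n c m l → ∃ y ∈ frontier (multibrotSet d), ‖y - (c + l * ts)‖ < ‖l‖ * τ := by
  obtain ⟨t₁, ht₁, ht₁τ⟩ := hA τ hτ
  obtain ⟨p, t₂, hp, ht₂, ht₂τ⟩ : ∃ (p : ℕ) (t₂ : ℂ), 2 ≤ p ∧ Att d p t₂ ∧ ‖t₂ - ts‖ < τ := by
    obtain ⟨p, q, t₁, t₂, hpq, h1, h2, h3, h4⟩ := two_centres hd hf hτ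
    have hp0 := h1.1
    have hq0 := h2.1
    rcases Nat.lt_or_ge 1 p with h | h
    · exact ⟨p, t₁, h, h1, h3⟩
    · exact ⟨q, t₂, by omega, h2, h4⟩
  obtain ⟨Ra, ηa, hRa, hηa, HA⟩ := trap_local hd ht₁
  obtain ⟨Rb, ηb, hRb, hηb, HB⟩ := per_local hp ht₂
  refine ⟨max (max 1 (max Ra Rb)) (max (max (1 / ηa) (1 / ηb)) (max ‖t₁‖ ‖t₂‖)),
    (le_max_left _ _).trans (le_max_left _ _), fun R hR C n c m l hn hcopy => ?_⟩
  have hR1 : 1 ≤ R := ((le_max_left _ _).trans (le_max_left _ _)).trans hR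
  have hRRa : Ra ≤ R :=
    ((le_max_left _ _).trans ((le_max_right _ _).trans (le_max_left _ _))).trans hR
  have hRRb : Rb ≤ R :=
    ((le_max_right _ _).trans ((le_max_right _ _).trans (le_max_left _ _))).trans hR
  have hRηa : 1 / ηa ≤ R :=
    ((le_max_left _ _).trans ((le_max_left _ _).trans (le_max_right _ _))).trans hR
  have hRηb : 1 / ηb ≤ R :=
    ((le_max_right _ _).trans ((le_max_left _ _).trans (le_max_right _ _))).trans hR
  have hRt₁ : ‖t₁‖ ≤ R :=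
    ((le_max_left _ _).trans ((le_max_right _ _).trans (le_max_right _ _))).trans hR
  have hRt₂ : ‖t₂‖ ≤ R :=
    ((le_max_right _ _).trans ((le_max_right _ _).trans (le_max_right _ _))).trans hR
  have hR0 : 0 < R := by linarith
  have inv_le : ∀ η : ℝ, 0 < η → 1 / η ≤ R → 1 / R ≤ η := by
    intro η hη h
    rw [div_le_iff₀ hη] at h
    rw [div_le_iff₀ hR0]
    linarith
  have hm := hcopy.1
  have hl0 : 0 < ‖l‖ := norm_pos_iff.2 hcopy.2.1
  -- the two cycles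
  obtain ⟨q₁, hq₁, hq₁n⟩ : ∃ q₁, Att d q₁ (c + l * t₁) ∧ q₁ ∣ n := by
    obtain ⟨ζ, ρ, J, hρ, h1, -⟩ := HA t₁ (by simpa using hηa.le)
      (fun z => (fc d (c + l * t₁))^[n] (m * z) / m) (fun z hz =>
        (copy_zero hd hR0 hcopy hRt₁ (hz.trans hRRa)).trans (inv_le _ hηa hRηa))
    obtain ⟨x', -, h2, h3⟩ := sink_of (g := fc d (c + l * t₁)) (by
      have := diff_fc d (c + l * t₁) 1
      rwa [Function.iterate_one] at this) hm hn one_pos hρ (by
      intro x hx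
      rw [Function.iterate_one]
      exact h1 x hx)
    rw [mul_one] at h2 h3
    have h4 : IsAttractingCycle (fc d (c + l * t₁)) n (m * x') := ⟨hn, h2, diff_fc d _ _ _, h3⟩
    refine ⟨_, att_of_cycle h4, ?_⟩
    exact Function.IsPeriodicPt.minimalPeriod_dvd h2
  obtain ⟨q₂, hq₂, hq₂n⟩ : ∃ q₂, Att d q₂ (c + l * t₂) ∧ ¬ q₂ ∣ n := by
    obtain ⟨w, ρ, hρ, h1, h1'⟩ := HB
      (fun z => (fc d (c + l * t₂))^[n] (m * z) / m) (fun z hz =>
        (copy_zero hd hR0 hcopy hRt₂ (hz.trans hRRb)).trans (inv_le _ hηb hRηb))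
    obtain ⟨x', hx', h2, h3⟩ := sink_of (g := fc d (c + l * t₂)) (by
      have := diff_fc d (c + l * t₂) 1
      rwa [Function.iterate_one] at this) hm hn (by omega : 0 < p) hρ h1
    have h4 : IsAttractingCycle (fc d (c + l * t₂)) (n * p) (m * x') :=
      ⟨by positivity, h2, diff_fc d _ _ _, h3⟩
    refine ⟨_, att_of_cycle h4, ?_⟩
    intro hdvd
    have h5 : Function.IsPeriodicPt (fc d (c + l * t₂)) n (m * x') := by
      rw [Function.isPeriodicPt_iff_minimalPeriod_dvd]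
      exact hdvd
    apply h1' x' hx'
    show (fc d (c + l * t₂))^[n] (m * x') / m = x'
    have h6 : (fc d (c + l * t₂))^[n] (m * x') = m * x' := h5
    rw [h6, mul_div_cancel_left₀ _ hm]
  have hmem : ∀ t : ℂ, ‖t - ts‖ < τ → c + l * t ∈ ball (c + l * ts) (‖l‖ * τ) := by
    intro t ht
    rw [mem_ball, dist_eq_norm]
    have : c + l * t - (c + l * ts) = l * (t - ts) := by ring
    rw [this, norm_mul]
    gcongr
  have hpre : IsPreconnected (ball (c + l * ts) (‖l‖ * τ)) := (convex_ball _ _).isPreconnected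
  by_cases hex : (ball (c + l * ts) (‖l‖ * τ) ∩ (multibrotSet d)ᶜ).Nonempty
  · obtain ⟨y, hy1, hy2⟩ := Pool.Agent.N673.QC.meets_frontier hpre
      ⟨_, hmem t₁ ht₁τ, hyp_sub hd ⟨_, hq₁⟩⟩ hex
    rw [mem_ball, dist_eq_norm] at hy1
    exact ⟨y, hy2, hy1⟩
  · exfalso
    have hsub : ball (c + l * ts) (‖l‖ * τ) ⊆ multibrotSet d := by
      intro w hw
      by_contra hcon
      exact hex ⟨w, hw, hcon⟩
    have g3 := att_const hd isOpen_ball hpre hsub (hmem t₁ ht₁τ) (hmem t₂ ht₂τ) hq₁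
    have g4 := att_unique hd g3 hq₂
    rw [g4] at hq₁n
    exact hq₂n hq₁n

end Pool.Agent.Helper95.GP
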