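import Pool.Agent.Helper95.GP.Shift

set_option autoImplicit false

/-! # Copies of the family `z ^ d + t` in all nearby translation families, with isotropic bounds -/

namespace Pool.Agent.Helper95.GP

open Set Filter Metric MeasureTheory Topology
open Pool.Agent.TH279.MD Pool.Agent.Y298.SH Pool.Agent.Y298.SH.CD Pool.Agent.Y298.CA
open Pool.Agent.N253.MS Pool.Agent.N772.TC
open Pool.Agent.N772.FU hiding bb
open Pool.Agent.H712R2 (P P_succ)

/-- monic perturbations -/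
def CopyM (d : ℕ) (C R : ℝ) (n : ℕ) (c m l : ℂ) : Prop :=
  m ≠ 0 ∧ l ≠ 0 ∧ ‖m‖ ≤ 1 / R ∧ ‖l‖ ≤ C * ‖m‖ ^ d ∧
    ∀ σ : ℝ, σ ≤ R * ‖l‖ → ∀ p : ℕ → ℂ, (∀ i, ‖p i‖ ≤ σ) → ∃ b : ℂ, ‖b‖ ≤ C * σ ∧
      ∀ t z : ℂ, ‖t‖ ≤ R → ‖z‖ ≤ R →
        ‖(fun y => Gs d p (fun _ => 0) y + (c + (b + l * t)))^[n] (m * z) - m * (z ^ d + t)‖ ≤
          ‖m‖ * (1 / R)

theorem copyM {d : ℕ} (hd : 2 ≤ d) {χ : ℝ} {c₀ : ℂ} (h : Lyap d χ c₀) :
    ∃ C δ' : ℝ, 1 ≤ C ∧ 0 < δ' ∧ δ' < χ ∧ ∀ R : ℝ, 1 ≤ R → ∀ᶠ n : ℕ in atTop, ∀ c : ℂ,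
      P d n c = 0 → ‖c - c₀‖ ≤ Real.exp (-((χ - δ') * n)) → ∃ m l : ℂ, CopyM d C R n c m l := by
  have hχ : 0 < χ := h.1
  have hdR : (2 : ℝ) ≤ d := by exact_mod_cast hd
  obtain ⟨e, he⟩ : ∃ e : ℝ, e = (d : ℝ) - 1 := ⟨_, rfl⟩
  have he1 : 1 ≤ e := by linarith
  have he0 : 0 < e := by linarith
  have hed : ((d - 1 : ℕ) : ℝ) = e := by rw [he]; push_cast [Nat.cast_sub (show 1 ≤ d by omega)]; ring
  obtain ⟨κ, hκ⟩ : ∃ κ, κ = min 1 (χ / e) / 800 := ⟨_, rfl⟩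
  have hκ0 : 0 < κ := by rw [hκ]; positivity
  have hκχ : 800 * κ ≤ χ / e := by
    rw [hκ]
    have : min 1 (χ / e) ≤ χ / e := min_le_right _ _
    linarith
  obtain ⟨δ, hδ⟩ : ∃ δ, δ = κ / (d + 1) := ⟨_, rfl⟩
  have hδ0 : 0 < δ := by rw [hδ]; positivity
  have hδκ : ((d : ℝ) + 1) * δ ≤ κ := by
    have : δ ≤ κ / (d + 1) := hδ.le
    rw [le_div_iff₀ (by positivity)] at this
    linarith
  obtain ⟨δ₁, hδ₁, H₁⟩ := seq_law hd h (ε := κ / 4) (by positivity)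
  obtain ⟨δ₂, hδ₂, H₂⟩ := der_law hd h (ε := κ / 4) (by positivity)
  obtain ⟨C₀, δ₃, hC₀1, hδ₃, -, H₃⟩ := uni hd h
  have hK1 := Kc_ge hd
  obtain ⟨C, hCe⟩ : ∃ C, C = 3 * Kc d * C₀ ^ 2 := ⟨_, rfl⟩
  have hC₀C : C₀ ≤ C := by
    rw [hCe]
    nlinarith
  have hC1 : 1 ≤ C := hC₀1.trans hC₀C
  have hC0 : 0 < C := by linarith
  obtain ⟨δ', hδ'⟩ : ∃ δ', δ' = min (min (min δ₁ δ₂) δ₃) (χ / 2) := ⟨_, rfl⟩
  have hδ'0 : 0 < δ' := by rw [hδ']; positivity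
  have hδ1 : δ' ≤ δ₁ := by
    rw [hδ']; exact (min_le_left _ _).trans ((min_le_left _ _).trans (min_le_left _ _))
  have hδ2 : δ' ≤ δ₂ := by
    rw [hδ']; exact (min_le_left _ _).trans ((min_le_left _ _).trans (min_le_right _ _))
  have hδ3 : δ' ≤ δ₃ := by rw [hδ']; exact (min_le_left _ _).trans (min_le_right _ _)
  have hδ4 : δ' < χ := by
    have : δ' ≤ χ / 2 := by rw [hδ']; exact min_le_right _ _
    linarith
  refine ⟨C, δ', hC1, hδ'0, hδ4, fun R hR => ?_⟩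
  have hR0 : 0 < R := by linarith
  have hgr : ∀ᶠ n : ℕ in atTop, (n : ℝ) ≤ Real.exp (κ * n) := by
    filter_upwards [ev_lin (show 0 < κ ^ 2 / 4 by positivity) 1] with n hn
    have h0 : (0 : ℝ) ≤ n := Nat.cast_nonneg n
    have h1 : κ * n / 2 ≤ Real.exp (κ * n / 2) := by
      have := Real.add_one_le_exp (κ * n / 2)
      linarith
    have h2 : (n : ℝ) * 1 ≤ n * (κ ^ 2 / 4 * n) := by gcongr
    calc (n : ℝ) = n * 1 := (mul_one _).symm
      _ ≤ n * (κ ^ 2 / 4 * n) := h2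
      _ = (κ * n / 2) ^ 2 := by ring
      _ ≤ Real.exp (κ * n / 2) ^ 2 := by gcongr
      _ = Real.exp (κ * n) := by rw [← Real.exp_nat_mul]; congr 1; push_cast; ring
  filter_upwards [H₁, H₂, H₃, hgr, ev_lin hκ0 (Real.log (100 * d * Kc d ^ 2)),
    ev_lin hδ0 (Real.log (2 * R)), ev_lin hκ0 (Real.log (2 * d * C * R ^ (d + 2))),
    eventually_ge_atTop 1]
    with n hn1 hn2 hn8 hn3 hn4 hn5 hn6 hn c hPc hcc
  have hn0 : (1 : ℝ) ≤ n := by exact_mod_cast hn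
  have hn00 : (0 : ℝ) < n := by linarith
  have hcc' : ∀ δ'' : ℝ, δ' ≤ δ'' → ‖c - c₀‖ ≤ Real.exp (-((χ - δ'') * n)) := by
    intro δ'' h''
    refine hcc.trans (Real.exp_le_exp.2 ?_)
    have : (χ - δ'') * n ≤ (χ - δ') * n := by gcongr
    linarith
  have hseq := hn1 c hPc (hcc' _ hδ1)
  obtain ⟨⟨hD1, hD2⟩, ⟨hP1, hP2⟩, -⟩ := hn2 c hPc (hcc' _ hδ2)
  obtain ⟨hU1, hU2⟩ := hn8 c hPc (hcc' _ hδ3)
  obtain ⟨N, hN⟩ : ∃ N, n = N + 1 := ⟨n - 1, by omega⟩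
  obtain ⟨w, hw⟩ : ∃ w, w = κ * n := ⟨_, rfl⟩
  obtain ⟨a, ha⟩ : ∃ a, a = δ * n := ⟨_, rfl⟩
  have hw0 : 0 < w := by rw [hw]; positivity
  have ha0 : 0 < a := by rw [ha]; positivity
  have haw : ((d : ℝ) + 1) * a ≤ w := by
    rw [hw, ha, ← mul_assoc]
    gcongr
  have haw' : 3 * a ≤ w := by nlinarith
  have hC : 100 * d * Kc d ^ 2 ≤ Real.exp w := by
    rw [← Real.exp_log (show (0 : ℝ) < 100 * d * Kc d ^ 2 by positivity), hw]
    exact Real.exp_le_exp.2 (by linarith)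
  have hRa : 2 * R ≤ Real.exp a := by
    rw [← Real.exp_log (show (0 : ℝ) < 2 * R by positivity), ha]
    exact Real.exp_le_exp.2 (by linarith)
  have hRw : 2 * d * C * R ^ (d + 2) ≤ Real.exp w := by
    rw [← Real.exp_log (show (0 : ℝ) < 2 * d * C * R ^ (d + 2) by positivity), hw]
    exact Real.exp_le_exp.2 (by linarith)
  rw [← hw] at hn3
  have hNn : n - 1 = N := by omega
  rw [hNn] at hseq hD1 hD2
  have hDp : Dp (aa d c) N = deriv ((f d c)^[N]) c := Dp_eq d c N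
  have hzN : zz d c N = 0 := by
    rw [hN, P_last hd (by omega)] at hPc
    exact hPc
  have hbd : ∀ j, ‖zz d c j‖ ≤ 2 := by
    intro j
    have h1 := bd_of_centre hd hn hPc (j + 1)
    have h2 : P d (j + 1) c = zz d c j := by
      rw [P_last hd (by omega)]
      rfl
    rwa [h2] at h1
  have hne : ∀ j ≤ N, Dp (aa d c) j ≠ 0 := by
    intro j hj
    apply norm_pos_iff.1
    rw [norm_Dp]
    exact (Real.exp_pos _).trans_le (hseq j hj).1
  have hder : deriv (P d n) c = Dp (aa d c) N *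
      ∑ i ∈ Finset.range (N + 1), (Dp (aa d c) i)⁻¹ := by
    rw [hN]
    exact derP hd N hne
  have hκn0 : 0 < κ * n := by positivity
  have hO : Orb N (aa d c) (Real.exp w) := by
    refine ⟨Real.one_le_exp hw0.le, ?_, hne, ?_, ?_⟩
    · have : (n : ℝ) = N + 1 := by rw [hN]; push_cast; ring
      linarith
    · intro j i hji hi
      rw [norm_Dp, norm_Dp]
      have h1 := (hseq j (hji.trans hi)).2
      have h2 := (hseq i hi).1
      calc Pd d c j ≤ Real.exp (χ * j + κ / 4 * n) := h1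
        _ ≤ Real.exp (w + (χ * i - κ / 4 * n)) := by
            apply Real.exp_le_exp.2
            have h3 : χ * j ≤ χ * i := by gcongr
            rw [hw]
            linarith
        _ = Real.exp w * Real.exp (χ * i - κ / 4 * n) := Real.exp_add _ _
        _ ≤ _ := by gcongr
    · have h1 : ‖deriv (P d n) c‖ = ‖Dp (aa d c) N‖ *
          ‖∑ i ∈ Finset.range (N + 1), (Dp (aa d c) i)⁻¹‖ := by rw [hder, norm_mul]
      rw [hDp] at h1
      have h2 : Real.exp ((χ - κ / 4) * n) ≤ Real.exp ((χ + κ / 4) * n) *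
          ‖∑ i ∈ Finset.range (N + 1), (Dp (aa d c) i)⁻¹‖ := by
        rw [h1] at hP1
        refine hP1.trans ?_
        gcongr
      have h3 : Real.exp ((χ + κ / 4) * n) ≤ Real.exp w * Real.exp ((χ - κ / 4) * n) := by
        rw [← Real.exp_add]
        apply Real.exp_le_exp.2
        rw [hw]
        linarith
      have h4 : 0 < Real.exp ((χ - κ / 4) * n) := Real.exp_pos _
      have h5 : Real.exp ((χ - κ / 4) * n) * 1 ≤ Real.exp ((χ - κ / 4) * n) * (Real.exp w *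
          ‖∑ i ∈ Finset.range (N + 1), (Dp (aa d c) i)⁻¹‖) := by
        calc _ = Real.exp ((χ - κ / 4) * n) := mul_one _
          _ ≤ _ := h2
          _ ≤ (Real.exp w * Real.exp ((χ - κ / 4) * n)) *
              ‖∑ i ∈ Finset.range (N + 1), (Dp (aa d c) i)⁻¹‖ := by gcongr
          _ = _ := by ring
      exact le_of_mul_le_mul_left h5 h4
  -- the sums
  have hbbD : ∀ j, bb d c j = (Dp (aa d c) j)⁻¹ := by
    intro j
    rw [Dp_eq]
    rfl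
  simp only [hbbD] at hU1 hU2
  rw [hN] at hU1 hU2
  -- the scales
  have hDpos : 0 < ‖deriv ((f d c)^[N]) c‖ := (Real.exp_pos _).trans_le hD1
  have hD0 : deriv ((f d c)^[N]) c ≠ 0 := norm_pos_iff.1 hDpos
  obtain ⟨m, hm⟩ : ∃ m : ℂ, m ^ (d - 1) = (deriv ((f d c)^[N]) c)⁻¹ :=
    IsAlgClosed.exists_pow_nat_eq _ (by omega)
  have hPpos : 0 < ‖deriv (P d n) c‖ := (Real.exp_pos _).trans_le hP1
  obtain ⟨l, hl⟩ : ∃ l : ℂ, l = m / deriv (P d n) c := ⟨_, rfl⟩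
  have hm1' : m ^ (d - 1) * deriv ((f d c)^[N]) c = 1 := by rw [hm, inv_mul_cancel₀ hD0]
  have hlm' : l * deriv (P d n) c = m := by
    rw [hl]
    exact div_mul_cancel₀ _ (norm_pos_iff.1 hPpos)
  have hmD : ‖m‖ ^ (d - 1) * ‖deriv ((f d c)^[N]) c‖ = 1 := by
    rw [← norm_pow, ← norm_mul, hm1', norm_one]
  have hmp : ‖m‖ ^ (d - 1) = ‖deriv ((f d c)^[N]) c‖⁻¹ := eq_inv_of_mul_eq_one_left hmD
  have hχe : χ = e * (χ / e) := by field_simp
  have hκe : κ / 4 / e ≤ κ / 4 := div_le_self (by positivity) he1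
  have hm1 : ‖m‖ ≤ Real.exp (-((χ / e - κ / 4) * n)) := by
    have h1 : ‖m‖ ≤ Real.exp (-((χ / e - κ / 4 / e) * n)) := by
      apply pow_bd (norm_nonneg m) (show 1 ≤ d - 1 by omega)
      rw [hmp, hed]
      have h2 : e * -((χ / e - κ / 4 / e) * n) = -((χ - κ / 4) * n) := by field_simp
      rw [h2, Real.exp_neg]
      exact inv_anti₀ (Real.exp_pos _) hD1
    refine h1.trans (Real.exp_le_exp.2 ?_)
    have : (χ / e - κ / 4) * n ≤ (χ / e - κ / 4 / e) * n := by gcongr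
    linarith
  have hχw : 800 * w ≤ χ / e * n := by
    rw [hw, ← mul_assoc]
    gcongr
  have hm3 : ‖m‖ ≤ Real.exp (-(400 * w)) := by
    refine hm1.trans (Real.exp_le_exp.2 ?_)
    rw [hw] at hχw ⊢
    linarith
  have hmne : m ≠ 0 := by
    rintro rfl
    rw [zero_pow (by omega), zero_mul] at hm1'
    exact zero_ne_one hm1'
  have hmpos : 0 < ‖m‖ := norm_pos_iff.2 hmne
  have hlne : l ≠ 0 := by
    rintro rfl
    rw [zero_mul] at hlm'
    exact hmne hlm'.symm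
  have hm' : m ^ (d - 1) * Dp (aa d c) N = 1 := by rw [hDp]; exact hm1'
  have hl' : l * (Dp (aa d c) N * ∑ i ∈ Finset.range (N + 1), (Dp (aa d c) i)⁻¹) = m := by
    rw [← hder]
    exact hlm'
  have hlC : ‖l‖ ≤ C * ‖m‖ ^ d := by
    have h1 : ‖l‖ * ‖∑ i ∈ Finset.range (N + 1), (Dp (aa d c) i)⁻¹‖ = ‖m‖ ^ d := by
      rw [← norm_mul, ← norm_pow]
      congr 1
      have h3 : m ^ d = m ^ (d - 1) * m := by rw [← pow_succ, Nat.sub_add_cancel (by omega)]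
      rw [h3]
      nth_rewrite 2 [← hl']
      calc _ = (1 : ℂ) * (l * ∑ i ∈ Finset.range (N + 1), (Dp (aa d c) i)⁻¹) := by ring
        _ = (m ^ (d - 1) * Dp (aa d c) N) * (l * ∑ i ∈ Finset.range (N + 1), (Dp (aa d c) i)⁻¹) := by
            rw [hm']
        _ = _ := by ring
    calc ‖l‖ = ‖l‖ * 1 := (mul_one _).symm
      _ ≤ ‖l‖ * (C₀ * ‖∑ i ∈ Finset.range (N + 1), (Dp (aa d c) i)⁻¹‖) := by gcongr
      _ = C₀ * ‖m‖ ^ d := by rw [← h1]; ring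
      _ ≤ C * ‖m‖ ^ d := by gcongr
  have hm11 : ‖m‖ ≤ 1 := hm3.trans (Real.exp_le_one_iff.2 (by linarith))
  have hRd : (1 : ℝ) ≤ R ^ (d + 1) := one_le_pow₀ hR
  have hRw2 : R * C ≤ Real.exp w := by
    refine le_trans ?_ hRw
    have h1 : (1 : ℝ) ≤ 2 * d * R ^ (d + 1) := by nlinarith
    calc R * C = 1 * (R * C) := (one_mul _).symm
      _ ≤ (2 * d * R ^ (d + 1)) * (R * C) := by gcongr
      _ = 2 * d * C * R ^ (d + 2) := by ring
  obtain ⟨k1, k2, k3, k4, k5, k6, k7, k8, k9, -⟩ :=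
    num hd hw0 hC (norm_nonneg m) hm3 haw ha0.le
  obtain ⟨σ₁, hσ₁⟩ : ∃ σ₁, σ₁ = Real.exp (-(300 * w)) := ⟨_, rfl⟩
  have hσ₁0 : 0 < σ₁ := by rw [hσ₁]; exact Real.exp_pos _
  rw [← hσ₁] at k1 k5 k6 k7 k8
  have hexpw : Real.exp w * Real.exp (-(400 * w)) ≤ σ₁ := by
    rw [← Real.exp_add, hσ₁]
    exact Real.exp_le_exp.2 (by linarith)
  have hRl : R * ‖l‖ ≤ σ₁ := by
    have h1 : ‖m‖ ^ d ≤ ‖m‖ := by
      calc ‖m‖ ^ d ≤ ‖m‖ ^ 1 := pow_le_pow_of_le_one (norm_nonneg m) hm11 (by omega)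
        _ = ‖m‖ := pow_one _
    calc R * ‖l‖ ≤ R * (C * ‖m‖) := by
          gcongr
          exact hlC.trans (by gcongr)
      _ = (R * C) * ‖m‖ := by ring
      _ ≤ Real.exp w * Real.exp (-(400 * w)) := by gcongr
      _ ≤ σ₁ := hexpw
  refine ⟨m, l, hmne, hlne, ?_, hlC, ?_⟩
  · refine hm3.trans ?_
    rw [le_div_iff₀ hR0]
    calc Real.exp (-(400 * w)) * R ≤ Real.exp (-(400 * w)) * Real.exp w := by
          gcongr
          refine le_trans ?_ hRw2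
          exact le_mul_of_one_le_right hR0.le hC1
      _ = Real.exp (-(400 * w) + w) := (Real.exp_add _ _).symm
      _ ≤ 1 := Real.exp_le_one_iff.2 (by linarith)
  intro σ hσ p hp
  have hσ0 : 0 ≤ σ := (norm_nonneg _).trans (hp 0)
  have hσσ : σ ≤ σ₁ := hσ.trans hRl
  have hs0 : ∀ i : ℕ, ‖(fun _ : ℕ => (0 : ℂ)) i‖ ≤ σ := fun i => by simpa using hσ0
  have hσk : 20 * Kc d ^ 2 * Real.exp w ^ 10 * σ ≤ 1 := by
    refine le_trans ?_ k1
    gcongr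
  obtain ⟨b, X, -, hX0, hXN, hXs, hXc⟩ := orbit hd hO hbd hzN hp hs0 hσk
  have hb := b_bound hd hO hbd hzN hp hs0 hσk hX0 hXN hXs hXc hU1 hU2
  refine ⟨b, by rw [hCe]; exact hb, ?_⟩
  intro t z ht hz
  obtain ⟨q, hq⟩ : ∃ q : ℕ → ℂ, q = fun i => if i ∈ Finset.Ico 1 d then p i / m ^ (d - i) else 0 :=
    ⟨_, rfl⟩
  obtain ⟨θ, hθ⟩ : ∃ θ, θ = R * C * ‖m‖ := ⟨_, rfl⟩
  have hθ0 : 0 ≤ θ := by rw [hθ]; positivity
  have hqb : ∀ i, ‖q i‖ ≤ θ := by
    intro i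
    rw [hq]
    simp only
    split_ifs with hi
    · rw [Finset.mem_Ico] at hi
      rw [norm_div, norm_pow, div_le_iff₀ (by positivity), hθ]
      have h1 : ‖m‖ ^ d ≤ ‖m‖ * ‖m‖ ^ (d - i) := by
        rw [← pow_succ']
        exact pow_le_pow_of_le_one (norm_nonneg m) hm11 (by omega)
      calc ‖p i‖ ≤ R * ‖l‖ := (hp i).trans hσ
        _ ≤ R * (C * ‖m‖ ^ d) := by gcongr
        _ ≤ R * (C * (‖m‖ * ‖m‖ ^ (d - i))) := by gcongr
        _ = R * C * ‖m‖ * ‖m‖ ^ (d - i) := by ring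
    · rw [norm_zero]
      exact hθ0
  have hpq : ∀ i ∈ Finset.Ico 1 d, p i = q i * m ^ (d - i) := by
    intro i hi
    rw [hq]
    simp only
    rw [if_pos hi, div_mul_cancel₀ _ (pow_ne_zero _ hmne)]
  have hRe : R ≤ Real.exp a := by linarith
  have hmz : ‖m * z‖ ≤ 1 := by
    rw [norm_mul]
    calc ‖m‖ * ‖z‖ ≤ Real.exp (-(400 * w)) * Real.exp a := by
          gcongr
          linarith
      _ = Real.exp (-(400 * w) + a) := (Real.exp_add _ _).symm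
      _ ≤ Real.exp 0 := Real.exp_le_exp.2 (by linarith)
      _ = 1 := Real.exp_zero
  have hUn : ‖Us d q z - z ^ d‖ ≤ d * (θ * R ^ d) := Us_near hqb hR hz
  have hθa : θ ≤ Real.exp a := by
    rw [hθ]
    calc R * C * ‖m‖ ≤ Real.exp w * Real.exp (-(400 * w)) := by gcongr
      _ ≤ Real.exp 0 := by
          rw [← Real.exp_add]
          exact Real.exp_le_exp.2 (by linarith)
      _ ≤ Real.exp a := Real.exp_le_exp.2 ha0.le
  have hU : ‖Us d q z‖ ≤ Real.exp (4 * w + a) / 4 := by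
    have h1 : (d : ℝ) * (θ * R ^ d) ≤ d * (Real.exp a * Real.exp a ^ d) := by gcongr
    have h2 : ‖z ^ d‖ ≤ Real.exp a ^ d := by
      rw [norm_pow]
      have : ‖z‖ ≤ Real.exp a := hz.trans hRe
      gcongr
    have h3 := norm_le_norm_add_norm_sub' (Us d q z) (z ^ d)
    linarith
  obtain ⟨-, -, r2⟩ := ren hd hO hbd (fun i => (hp i).trans hσσ) (s := fun _ => 0)
    (fun i => by simpa using hσ₁0.le) k1 hX0 hXN hXs (fun j => (hXc j).trans (by gcongr)) hm' hl' hpq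
    (ht.trans hRe) hmz hU k2 k4 k5
  rw [hN]
  have h1 : ‖(fun y => Gs d p (fun _ => 0) y + (c + (b + l * t)))^[N + 1] (m * z) -
      m * (Us d q z + t)‖ ≤ ‖m‖ * Real.exp (-a) := by
    refine r2.trans ?_
    rw [mul_assoc]
    gcongr
  have h2 : Real.exp (-a) ≤ 1 / (2 * R) := by
    rw [Real.exp_neg, ← one_div]
    exact one_div_le_one_div_of_le (by positivity) hRa
  have h3 : (d : ℝ) * (θ * R ^ d) ≤ 1 / (2 * R) := by
    rw [le_div_iff₀ (by positivity), hθ]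
    calc (d : ℝ) * (R * C * ‖m‖ * R ^ d) * (2 * R) = (2 * d * C * R ^ (d + 2)) * ‖m‖ := by ring
      _ ≤ Real.exp w * Real.exp (-(400 * w)) := by gcongr
      _ ≤ 1 := by
          rw [← Real.exp_add]
          exact Real.exp_le_one_iff.2 (by linarith)
  have e1 : (fun y => Gs d p (fun _ => 0) y + (c + (b + l * t)))^[N + 1] (m * z) - m * (z ^ d + t) =
      ((fun y => Gs d p (fun _ => 0) y + (c + (b + l * t)))^[N + 1] (m * z) - m * (Us d q z + t)) +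
        m * (Us d q z - z ^ d) := by ring
  rw [e1]
  refine (norm_add_le _ _).trans ?_
  rw [norm_mul]
  have h4 : 1 / R = 1 / (2 * R) + 1 / (2 * R) := by field_simp; ring
  have h5 : ‖m‖ * (1 / R) = ‖m‖ * (1 / (2 * R)) + ‖m‖ * (1 / (2 * R)) := by rw [h4, mul_add]
  rw [h5]
  exact add_le_add (h1.trans (mul_le_mul_of_nonneg_left h2 (norm_nonneg m)))
    (mul_le_mul_of_nonneg_left (hUn.trans h3) (norm_nonneg m))

end Pool.Agent.Helper95.GP
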