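import Pool.Agent.Helper95.GP.Cop
import Pool.Graph.R_seed8.Y272.GA.Brg

set_option autoImplicit false

/-! # Copies in the space of all polynomials of degree `d`: the leading coefficient -/

namespace Pool.Agent.Helper95.GP

open Set Filter Metric MeasureTheory Topology
open Pool.Agent.TH279.MD Pool.Agent.Y298.SH Pool.Agent.Y298.SH.CD Pool.Agent.Y298.CA
open Pool.Agent.N253.MS Pool.Agent.N772.TC
open Pool.Agent.N772.FU hiding bb
open Pool.Agent.H712R2 (P P_succ)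
open Pool.Agent.Y272.GA (FF)

/-- roots near one -/
theorem exists_root {d : ℕ} (hd : 2 ≤ d) {u : ℂ} (hu : ‖u‖ ≤ 1 / 6) :
    ∃ κ : ℂ, (1 + u) * κ ^ (d - 1) = 1 ∧ ‖κ - 1‖ ≤ 3 * ‖u‖ := by
  have hd1 : (1 : ℝ) ≤ ((d - 1 : ℕ) : ℝ) := by exact_mod_cast (by omega : 1 ≤ d - 1)
  have hd0 : ((d - 1 : ℕ) : ℂ) ≠ 0 := by
    have : d - 1 ≠ 0 := by omega
    exact_mod_cast this
  have hu1 : (1 : ℂ) + u ≠ 0 := by
    intro h0
    have h1 : u = -1 := by linear_combination h0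
    rw [h1, norm_neg, norm_one] at hu
    linarith
  have hlog := Complex.norm_log_one_add_half_le_self (z := u) (by linarith)
  obtain ⟨y, hy⟩ : ∃ y : ℂ, y = -Complex.log (1 + u) / ((d - 1 : ℕ) : ℂ) := ⟨_, rfl⟩
  have hyn : ‖y‖ ≤ 3 / 2 * ‖u‖ := by
    rw [hy, norm_div, norm_neg, Complex.norm_natCast]
    refine (div_le_self (norm_nonneg _) hd1).trans hlog
  refine ⟨Complex.exp y, ?_, ?_⟩
  · rw [← Complex.exp_nat_mul, hy, mul_div_cancel₀ _ hd0, Complex.exp_neg, Complex.exp_log hu1,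
      mul_inv_cancel₀ hu1]
  · have := Complex.norm_exp_sub_one_le (x := y) (by linarith)
    linarith

theorem Gs_zero (d : ℕ) (p : ℕ → ℂ) (z : ℂ) :
    Gs d p (fun _ => 0) z = z ^ d + ∑ i ∈ Finset.Ico 1 d, p i * z ^ i := by
  unfold Gs Us Vs
  simp

/-- the coefficients -/
noncomputable def xc {d : ℕ} (x : Fin d → ℂ) (i : ℕ) : ℂ :=
  if h : i < d + 1 ∧ 1 ≤ i then x ⟨i - 1, by omega⟩ else 0

theorem xc_norm {d : ℕ} (x : Fin d → ℂ) (i : ℕ) : ‖xc x i‖ ≤ ‖x‖ := by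
  unfold xc
  split_ifs with h
  · exact norm_le_pi_norm x _
  · simp

theorem FF_cons {d : ℕ} (hd : 2 ≤ d) (k : ℂ) (x : Fin d → ℂ) (z : ℂ) :
    FF d (Fin.cons k x) z = (1 + xc x d) * z ^ d + (∑ i ∈ Finset.Ico 1 d, xc x i * z ^ i) + k := by
  unfold FF
  rw [Fin.sum_univ_succ]
  have h1 : ∑ i : Fin d, (Fin.cons k x : Fin (d + 1) → ℂ) i.succ * z ^ ((i.succ : Fin (d + 1)) : ℕ) =
      ∑ i ∈ Finset.Ico 1 (d + 1), xc x i * z ^ i := by
    rw [Finset.sum_Ico_eq_sum_range, show d + 1 - 1 = d by omega, Finset.sum_range]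
    apply Finset.sum_congr rfl
    intro i _
    rw [Fin.cons_succ, Fin.val_succ]
    unfold xc
    rw [dif_pos ⟨by omega, by omega⟩]
    have e1 : (⟨1 + (i : ℕ) - 1, by omega⟩ : Fin d) = i := by
      apply Fin.ext
      show 1 + (i : ℕ) - 1 = i
      omega
    rw [e1, add_comm 1 (i : ℕ)]
  rw [h1, Finset.sum_Ico_succ_top (by omega)]
  simp only [Fin.cons_zero, Fin.val_zero, pow_zero, mul_one]
  ring

theorem conj_iter {F G : ℂ → ℂ} {κ : ℂ} (h : ∀ z, F (κ * z) = κ * G z) (n : ℕ) (z : ℂ) :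
    F^[n] (κ * z) = κ * G^[n] z := by
  induction n with
  | zero => rfl
  | succ n ih => rw [Function.iterate_succ_apply', ih, h, Function.iterate_succ_apply']

/-- **Copies.** -/
def CopyP (d : ℕ) (C R : ℝ) (n : ℕ) (c m l : ℂ) : Prop :=
  m ≠ 0 ∧ l ≠ 0 ∧ ‖m‖ ≤ 1 / R ∧ ‖l‖ ≤ C * ‖m‖ ^ d ∧
    ∀ σ : ℝ, σ ≤ R * ‖l‖ → ∀ x : Fin d → ℂ, ‖x‖ ≤ σ → ∃ κ b : ℂ, ‖κ - 1‖ ≤ C * σ ∧
      ‖κ - 1‖ ≤ 1 / 2 ∧ ‖b‖ ≤ C * σ ∧ ∀ t z : ℂ, ‖t‖ ≤ R → ‖z‖ ≤ R →
        ‖(FF d (Fin.cons (κ * (c + (b + l * t))) x))^[n] (κ * m * z) - κ * m * (z ^ d + t)‖ ≤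
          ‖κ * m‖ * (1 / R)

theorem copyP_of {d : ℕ} (hd : 2 ≤ d) {C R : ℝ} (hC : 1 ≤ C) (hR : 1 ≤ R) {n : ℕ} {c m l : ℂ}
    (h : CopyM d C (6 * d * C * R) n c m l) : CopyP d (3 * C) R n c m l := by
  have hdR : (2 : ℝ) ≤ d := by exact_mod_cast hd
  obtain ⟨R', hR'⟩ : ∃ R', R' = 6 * d * C * R := ⟨_, rfl⟩
  rw [← hR'] at h
  obtain ⟨hm, hl, hmR, hlm, H⟩ := h
  have hR0 : 0 < R := by linarith
  have hC0 : 0 < C := by linarith
  have hm0 : 0 < ‖m‖ := norm_pos_iff.2 hm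
  have hl0 : 0 < ‖l‖ := norm_pos_iff.2 hl
  have hdC : (2 : ℝ) ≤ 6 * d * C := by nlinarith
  have hRR : 2 * R ≤ R' := by
    rw [hR']
    gcongr
  have hR'0 : 0 < R' := by linarith
  have hR'1 : 1 ≤ R' := by linarith
  -- smallness
  have hRl : R * ‖l‖ ≤ 1 / (6 * d) := by
    have h1 : ‖m‖ ^ d ≤ 1 / R' := by
      calc ‖m‖ ^ d ≤ ‖m‖ ^ 1 := pow_le_pow_of_le_one (norm_nonneg m)
            (hmR.trans (by rw [div_le_one hR'0]; exact hR'1)) (by omega)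
        _ = ‖m‖ := pow_one _
        _ ≤ 1 / R' := hmR
    calc R * ‖l‖ ≤ R * (C * (1 / R')) := by
          gcongr
          exact hlm.trans (by gcongr)
      _ = 1 / (6 * d) := by
          rw [hR']
          field_simp
  refine ⟨hm, hl, ?_, ?_, ?_⟩
  · exact hmR.trans (one_div_le_one_div_of_le hR0 (by linarith))
  · refine hlm.trans ?_
    gcongr
    linarith
  intro σ hσ x hx
  have hσ0 : 0 ≤ σ := (norm_nonneg _).trans hx
  have hσd : 6 * d * σ ≤ 1 := by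
    have := hσ.trans hRl
    rw [le_div_iff₀ (by positivity)] at this
    linarith
  have hσ6 : σ ≤ 1 / 6 := by nlinarith
  have hu : ‖xc x d‖ ≤ σ := (xc_norm x d).trans hx
  obtain ⟨κ, hκ1, hκ2⟩ := exists_root hd (hu.trans hσ6)
  have hκ3 : ‖κ - 1‖ ≤ 3 * σ := hκ2.trans (by gcongr)
  have hκn : ‖κ‖ ≤ 1 + 3 * σ := by
    have := norm_add_le (κ - 1) 1
    rw [sub_add_cancel, norm_one] at this
    linarith
  have hκ0 : κ ≠ 0 := by
    rintro rfl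
    rw [zero_pow (by omega), mul_zero] at hκ1
    exact zero_ne_one hκ1
  have hpow : ∀ i ≤ d, ‖κ‖ ^ i ≤ 2 := by
    intro i hi
    calc ‖κ‖ ^ i ≤ (1 + 3 * σ) ^ i := by gcongr
      _ ≤ (1 + 3 * σ) ^ d := pow_le_pow_right₀ (by linarith) hi
      _ ≤ (Real.exp (3 * σ)) ^ d := by
          gcongr
          have := Real.add_one_le_exp (3 * σ)
          linarith
      _ = Real.exp (d * (3 * σ)) := (Real.exp_nat_mul _ _).symm
      _ ≤ Real.exp (1 / 2) := Real.exp_le_exp.2 (by linarith)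
      _ ≤ 2 := by
          have h1 := Real.exp_one_lt_d9
          have h2 : Real.exp (1 / 2) ^ 2 = Real.exp 1 := by
            rw [← Real.exp_nat_mul]
            norm_num
          nlinarith [Real.exp_pos (1 / 2 : ℝ)]
  obtain ⟨p, hp⟩ : ∃ p : ℕ → ℂ, p = fun i => if i ∈ Finset.Ico 1 d then xc x i * κ ^ (i - 1) else 0 :=
    ⟨_, rfl⟩
  have hpb : ∀ i, ‖p i‖ ≤ 2 * σ := by
    intro i
    rw [hp]
    simp only
    split_ifs with hi
    · rw [Finset.mem_Ico] at hi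
      rw [norm_mul, norm_pow, mul_comm 2 σ]
      exact mul_le_mul ((xc_norm x i).trans hx) (hpow _ (by omega)) (by positivity) hσ0
    · rw [norm_zero]
      positivity
  obtain ⟨b, hb, hmain⟩ := H (2 * σ) (by
    calc 2 * σ ≤ 2 * (R * ‖l‖) := by gcongr
      _ = 2 * R * ‖l‖ := by ring
      _ ≤ R' * ‖l‖ := by gcongr) p hpb
  refine ⟨κ, b, ?_, ?_, ?_, ?_⟩
  · refine hκ3.trans ?_
    nlinarith
  · linarith
  · refine hb.trans ?_
    nlinarith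
  intro t z ht hz
  obtain ⟨F, hF⟩ : ∃ F : ℂ → ℂ, F = FF d (Fin.cons (κ * (c + (b + l * t))) x) := ⟨_, rfl⟩
  obtain ⟨G, hG⟩ : ∃ G : ℂ → ℂ, G = fun y => Gs d p (fun _ => 0) y + (c + (b + l * t)) := ⟨_, rfl⟩
  have hconj : ∀ z, F (κ * z) = κ * G z := by
    intro z
    have h1 : κ ^ d = κ ^ (d - 1) * κ := by rw [← pow_succ, Nat.sub_add_cancel (by omega)]
    have hL : (1 + xc x d) * (κ * z) ^ d = κ * z ^ d := by
      rw [mul_pow, h1]
      linear_combination (κ * z ^ d) * hκ1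
    have hS : ∑ i ∈ Finset.Ico 1 d, xc x i * (κ * z) ^ i = κ * ∑ i ∈ Finset.Ico 1 d, p i * z ^ i := by
      rw [Finset.mul_sum]
      apply Finset.sum_congr rfl
      intro i hi
      rw [hp]
      simp only
      rw [if_pos hi]
      rw [Finset.mem_Ico] at hi
      rw [mul_pow]
      have h1 : κ ^ i = κ ^ (i - 1) * κ := by rw [← pow_succ, Nat.sub_add_cancel (by omega)]
      rw [h1]
      ring
    rw [hF, hG, FF_cons hd]
    simp only
    rw [Gs_zero, hL, hS]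
    ring
  have h1 := hmain t z (ht.trans (by linarith)) (hz.trans (by linarith))
  rw [← hF, show κ * m * z = κ * (m * z) by ring, conj_iter hconj,
    show κ * m * (z ^ d + t) = κ * (m * (z ^ d + t)) by ring, ← mul_sub, norm_mul, norm_mul, mul_assoc]
  gcongr
  rw [hG]
  refine h1.trans ?_
  gcongr
  linarith

theorem copyP {d : ℕ} (hd : 2 ≤ d) {χ : ℝ} {c₀ : ℂ} (h : Lyap d χ c₀) :
    ∃ C δ' : ℝ, 1 ≤ C ∧ 0 < δ' ∧ δ' < χ ∧ ∀ R : ℝ, 1 ≤ R → ∀ᶠ n : ℕ in atTop, ∀ c : ℂ,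
      P d n c = 0 → ‖c - c₀‖ ≤ Real.exp (-((χ - δ') * n)) → ∃ m l : ℂ, CopyP d C R n c m l := by
  have hdR : (2 : ℝ) ≤ d := by exact_mod_cast hd
  obtain ⟨C, δ', hC, h1, h2, H⟩ := copyM hd h
  refine ⟨3 * C, δ', by linarith, h1, h2, fun R hR => ?_⟩
  have hR' : 1 ≤ 6 * d * C * R := by
    have e1 : (1 : ℝ) ≤ 6 * d * C := by nlinarith
    nlinarith
  filter_upwards [H _ hR'] with n hn c hc hcc
  obtain ⟨m, l, hml⟩ := hn c hc hcc
  exact ⟨m, l, copyP_of hd hC hR hml⟩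

end Pool.Agent.Helper95.GP
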