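import Pool.Agent.Helper95.GP.Slice
import Pool.Graph.R_pool_sql_team_seeded_843ab51a.Results.MP_28f8a1_an.ExactVolumeScaling

set_option autoImplicit false

/-! # Typical unicritical polynomials in the space of all polynomials -/

namespace Pool.Agent.Helper95.GP

open Set Filter Metric MeasureTheory Topology Polynomial
open N62a1eb23
open Pool.Agent.Helper95.GB (Att ph exists_a cusp_frontier att_main ph_cont lyap_dense exp_lim
  exists_centre)
open Pool.Agent.H712R2 (fc P isCompact_multibrot mem_multibrot_iff)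
open Pool.Agent.Y298.EX (OS)
open Pool.Agent.Y272.GA (FF dF differentiable_FF ee ee_zero ee_ne)
open Pool.Agent.Results.MP_28f8a1_an.ExactVolumeScaling (centre OneSink Conn NonShift Lyapunov
  scaling preimage_OS vol_box Order oneSink_sub conn_sub)
open Pool.Agent.Results.MP_8f2e1c_an.FullUniversality (centres univ many)

variable {d : ℕ}

/-- centres near parameters with a Lyapunov exponent -/
theorem near_centres (hd : 2 ≤ d) {χ : ℝ} {c₀ : ℂ} (h : Pool.Agent.Y298.CA.Lyap d χ c₀) {δ' : ℝ}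
    (h0 : 0 < δ') : ∀ᶠ n : ℕ in atTop, ∃ c : ℂ, P d n c = 0 ∧
      ‖c - c₀‖ ≤ Real.exp (-((χ - δ') * n)) := by
  obtain ⟨δ, -, H⟩ := univ hd h.1 one_pos
  obtain ⟨δ₁, h1, h2, h3, -⟩ := H c₀ h
  have hle : ∀ n : ℕ, ∀ c : ℂ, ‖c - c₀‖ ≤ Real.exp (-((χ - min δ₁ δ') * n)) →
      ‖c - c₀‖ ≤ Real.exp (-((χ - δ₁) * n)) ∧ ‖c - c₀‖ ≤ Real.exp (-((χ - δ') * n)) := by
    intro n c hc
    refine ⟨hc.trans (Real.exp_le_exp.2 ?_), hc.trans (Real.exp_le_exp.2 ?_)⟩
    · have : (χ - δ₁) * n ≤ (χ - min δ₁ δ') * n := by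
        gcongr
        exact min_le_left _ _
      linarith
    · have : (χ - δ') * n ≤ (χ - min δ₁ δ') * n := by
        gcongr
        exact min_le_right _ _
      linarith
  obtain ⟨γ, -, hγ⟩ := many hd h (δ' := min δ₁ δ') (lt_min h1 h0) ((min_le_left _ _).trans_lt h2) (by
    filter_upwards [h3] with n hn c hc hcc
    exact hn c hc (hle n c hcc).1)
  filter_upwards [hγ] with n hn
  obtain ⟨c, hc1, hc2⟩ := exists_centre hn
  refine ⟨c, ?_, (hle n c hc2).2⟩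
  have hc' : Function.minimalPeriod (fc d c) 0 = n := hc1
  have := Function.iterate_minimalPeriod (f := fc d c) (x := (0 : ℂ))
  rwa [hc'] at this

/-- the Multibrot set lies in the disc of radius two -/
theorem norm_le_two (hd : 2 ≤ d) {y : ℂ} (hy : y ∈ multibrotSet d) : ‖y‖ ≤ 2 := by
  have h1 := (mem_multibrot_iff hd y).1 hy 1
  rw [Pool.Agent.H712R2.P_succ, Pool.Agent.H712R2.P_zero, zero_pow (by omega), zero_add] at h1
  exact h1

theorem cusp_near {N : ℕ} {a : ℝ} (ha : 0 < a) (h : ((N : ℝ) + 2) * a ^ (N + 1) = 1) {τ : ℝ}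
    (hτ : 0 < τ) : ∃ t₁ : ℂ, Att (N + 2) 1 t₁ ∧ ‖t₁ - ph N a‖ < τ := by
  have h1 : (a : ℂ) ∈ closure (ball (0 : ℂ) a) := by
    rw [closure_ball _ ha.ne', mem_closedBall, dist_zero_right, Complex.norm_real,
      Real.norm_of_nonneg ha.le]
  have h2 : ph N (a : ℂ) ∈ closure (ph N '' ball (0 : ℂ) a) :=
    image_closure_subset_closure_image (ph_cont N) (mem_image_of_mem _ h1)
  obtain ⟨y, ⟨ζ, hζ, rfl⟩, hy⟩ := Metric.mem_closure_iff.1 h2 τ hτ
  rw [mem_ball, dist_zero_right] at hζ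
  refine ⟨_, att_main ha h hζ, ?_⟩
  rwa [dist_comm, dist_eq_norm] at hy

/-- from monic to general coordinates -/
theorem to_poly (hd : 2 ≤ d) {y : ℂ} {r : ℝ} (hr0 : 0 ≤ r) (hr1 : r < 1) :
    volume (OS d ∩ closedBall (ee d y) r) ≤ volume (OneSink d ∩ closedBall (centre d y) r) := by
  rw [← measure_preimage_add_right volume (-Pool.Agent.Y272.GA.xx d)]
  exact measure_mono (preimage_OS hd hr0 hr1)

/-- the volume of a set in a box about `z ^ d + y` -/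
noncomputable def VV (S : Set (Fin (d + 1) → ℂ)) (y : ℂ) (r : ℝ) : ℝ :=
  (volume (S ∩ closedBall (centre d y) r)).toReal

theorem VV_fin (S : Set (Fin (d + 1) → ℂ)) (y : ℂ) (r : ℝ) :
    volume (S ∩ closedBall (centre d y) r) ≠ ⊤ :=
  ne_top_of_le_ne_top measure_closedBall_lt_top.ne (measure_mono inter_subset_right)

theorem VV_mono {S : Set (Fin (d + 1) → ℂ)} {y y' : ℂ} {r r' : ℝ}
    (h : closedBall (centre d y) r ⊆ closedBall (centre d y') r') : VV S y r ≤ VV S y' r' :=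
  ENNReal.toReal_mono (VV_fin _ _ _) (measure_mono (inter_subset_inter_right _ h))

theorem VV_mono' {S S' : Set (Fin (d + 1) → ℂ)} (h : S ⊆ S') (y : ℂ) (r : ℝ) :
    VV S y r ≤ VV S' y r :=
  ENNReal.toReal_mono (VV_fin _ _ _) (measure_mono (inter_subset_inter_left _ h))

theorem VV_univ (y : ℂ) {r : ℝ} (hr : 0 < r) :
    (volume (closedBall (centre d y) r)).toReal = (Real.pi * r ^ 2) ^ (d + 1) := by
  rw [vol_box _ hr, ENNReal.toReal_ofReal (by positivity)]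

theorem dist_centre (y y' : ℂ) : dist (centre d y) (centre d y') ≤ ‖y - y'‖ := by
  rw [dist_eq_norm, pi_norm_le_iff_of_nonneg (norm_nonneg _)]
  intro i
  have h1 : (centre d y - centre d y') i = (C (y - y') : ℂ[X]).coeff i := by
    rw [Pi.sub_apply]
    unfold centre
    rw [coeff_add, coeff_add, C_sub, coeff_sub]
    ring
  rw [h1, coeff_C]
  split_ifs
  · exact le_rfl
  · rw [norm_zero]
    exact norm_nonneg _

/-- **Thick boxes near every boundary point.** -/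
theorem thick_dense (hd : 2 ≤ d) {x : ℂ} (hx : x ∈ frontier (multibrotSet d)) {r ε δ : ℝ}
    (hr : 0 < r) (hε : 0 < ε) (hδ : 0 < δ) : ∃ y ∈ frontier (multibrotSet d), ‖y - x‖ < r ∧
      ∃ s : ℝ, 0 < s ∧ s < δ ∧ (1 - ε) * (Real.pi * s ^ 2) ^ (d + 1) < VV (OneSink d) y s := by
  have hpi := Real.pi_pos
  obtain ⟨c₀, -, hc₀x, hL⟩ := lyap_dense hd hx (half_pos hr)
  obtain ⟨C, δ', hC, hδ', hδχ, H⟩ := copyP hd hL
  obtain ⟨N, rfl⟩ : ∃ N, d = N + 2 := ⟨d - 2, by omega⟩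
  obtain ⟨a, ha, h⟩ := exists_a N
  obtain ⟨ρ, R₁, hρ, hR₁, HS⟩ := slice_main ha h hC (half_pos hε)
  obtain ⟨R₂, hR₂, HB⟩ := bdry hd (cusp_frontier ha h) (fun τ hτ => cusp_near ha h hτ) hρ
  obtain ⟨T, hT⟩ : ∃ T, T = ‖ph N (a : ℂ)‖ + ρ := ⟨_, rfl⟩
  have hT0 : 0 < T := by rw [hT]; positivity
  obtain ⟨D, hD⟩ : ∃ D, D = min δ 1 / (2 * ρ) := ⟨_, rfl⟩
  have hD0 : 0 < D := by rw [hD]; positivity
  have hC0 : 0 < C := by linarith
  obtain ⟨R, hR⟩ : ∃ R, R = max (max R₁ R₂) (max (C / D) (8 * C * T / r)) := ⟨_, rfl⟩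
  have hRa : R₁ ≤ R := by rw [hR]; exact (le_max_left _ _).trans (le_max_left _ _)
  have hRb : R₂ ≤ R := by rw [hR]; exact (le_max_right _ _).trans (le_max_left _ _)
  have hRc : C / D ≤ R := by rw [hR]; exact (le_max_left _ _).trans (le_max_right _ _)
  have hRd : 8 * C * T / r ≤ R := by rw [hR]; exact (le_max_right _ _).trans (le_max_right _ _)
  have hR1 : 1 ≤ R := hR₁.trans hRa
  have hR0 : 0 < R := by linarith
  obtain ⟨n, hn1, ⟨c, hc1, hc2⟩, hn3, hn4⟩ := ((H R hR1).and ((near_centres hd hL hδ').and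
    ((exp_lim (sub_pos.2 hδχ) (show 0 < r / 8 by positivity)).and (eventually_ge_atTop 1)))).exists
  obtain ⟨m, l, hcopy⟩ := hn1 c hc1 hc2
  obtain ⟨y, hyf, hyl⟩ := HB R hRb C n c m l (by omega) hcopy
  have hyM : y ∈ multibrotSet (N + 2) :=
    (isCompact_multibrot hd).isClosed.frontier_subset hyf
  have hvol := HS R hRa n c m l y (by omega) hcopy (norm_le_two hd hyM) hyl.le
  obtain ⟨hm, hl, hmR, hlm, -⟩ := hcopy
  have hl0 : 0 < ‖l‖ := norm_pos_iff.2 hl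
  have hlR : ‖l‖ ≤ C / R := by
    have h1 : ‖m‖ ^ (N + 2) ≤ 1 / R := by
      calc ‖m‖ ^ (N + 2) ≤ ‖m‖ ^ 1 := pow_le_pow_of_le_one (norm_nonneg m)
            (hmR.trans (by rw [div_le_one hR0]; exact hR1)) (by omega)
        _ = ‖m‖ := pow_one _
        _ ≤ 1 / R := hmR
    calc ‖l‖ ≤ C * ‖m‖ ^ (N + 2) := hlm
      _ ≤ C * (1 / R) := by gcongr
      _ = C / R := by ring
  have hlD : ‖l‖ ≤ D := by
    refine hlR.trans ?_
    rw [div_le_iff₀ hD0] at hRc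
    rw [div_le_iff₀ hR0]
    linarith
  have hlT : ‖l‖ * T ≤ r / 8 := by
    rw [div_le_iff₀ hr] at hRd
    calc ‖l‖ * T ≤ C / R * T := by gcongr
      _ = C * T / R := by ring
      _ ≤ r / 8 := by
          rw [div_le_iff₀ hR0]
          linarith
  obtain ⟨s, hs⟩ : ∃ s, s = ρ * ‖l‖ := ⟨_, rfl⟩
  have hs0 : 0 < s := by rw [hs]; positivity
  have hsD : s ≤ min δ 1 / 2 := by
    calc s ≤ ρ * D := by rw [hs]; gcongr
      _ = min δ 1 / 2 := by rw [hD]; field_simp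
  have hmin : 0 < min δ 1 := by positivity
  have hsδ : s < δ := by
    have : min δ 1 ≤ δ := min_le_left _ _
    linarith
  have hs1 : s < 1 := by
    have : min δ 1 ≤ 1 := min_le_right _ _
    linarith
  refine ⟨y, hyf, ?_, s, hs0, hsδ, ?_⟩
  · have e1 : y - x = (y - (c + l * ph N a)) + (c - c₀) + l * ph N a + (c₀ - x) := by ring
    rw [e1]
    have e2 : ‖l‖ * ρ + ‖l * ph N (a : ℂ)‖ ≤ r / 8 := by
      rw [norm_mul]
      rw [hT] at hlT
      linarith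
    calc _ ≤ ‖y - (c + l * ph N a)‖ + ‖c - c₀‖ + ‖l * ph N (a : ℂ)‖ + ‖c₀ - x‖ := by
          refine (norm_add_le _ _).trans (add_le_add ?_ le_rfl)
          refine (norm_add_le _ _).trans (add_le_add ?_ le_rfl)
          exact norm_add_le _ _
      _ < r := by linarith
  · rw [← hs] at hvol
    have h1 := ENNReal.toReal_mono (VV_fin _ _ _) (hvol.trans (to_poly hd hs0.le hs1))
    refine lt_of_lt_of_le ?_ h1
    rw [ENNReal.toReal_ofReal']
    refine lt_of_lt_of_le ?_ (le_max_left _ _)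
    have h2 : 0 < (Real.pi * s ^ 2) ^ (N + 2 + 1) := by positivity
    nlinarith

/-- a residual set of boundary parameters -/
theorem residual_of {T : Set ℂ} (h : ∀ x ∈ frontier (multibrotSet d), ∀ r : ℝ, 0 < r →
    ∃ y ∈ frontier (multibrotSet d), ‖y - x‖ < r ∧ ∀ᶠ c in 𝓝 y, c ∈ T) :
    ∀ᶠ c₀ : frontier (multibrotSet d) in residual (frontier (multibrotSet d)), (c₀ : ℂ) ∈ T := by
  have hU : {c₀ : frontier (multibrotSet d) | (c₀ : ℂ) ∈ interior T} ∈
      residual (frontier (multibrotSet d)) := by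
    apply residual_of_dense_open
    · exact isOpen_interior.preimage continuous_subtype_val
    · intro x
      rw [Metric.mem_closure_iff]
      intro r hr
      obtain ⟨y, hy1, hy2, hy3⟩ := h x x.2 r hr
      refine ⟨⟨y, hy1⟩, ?_, ?_⟩
      · show y ∈ interior T
        rw [mem_interior_iff_mem_nhds]
        exact hy3
      · rw [Subtype.dist_eq, dist_comm, dist_eq_norm]
        exact hy2
  filter_upwards [hU] with c₀ hc₀
  exact interior_subset hc₀

/-- the parameters with a thick box -/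
def Tk (d : ℕ) (δ ε : ℝ) : Set ℂ := {y | ∃ s : ℝ, 0 < s ∧ s < δ ∧
  (1 - ε) * (Real.pi * s ^ 2) ^ (d + 1) < VV (OneSink d) y s}

theorem Tk_nhds {y₀ : ℂ} {δ ε : ℝ} (h : y₀ ∈ Tk d δ ε) : ∀ᶠ y in 𝓝 y₀, y ∈ Tk d δ ε := by
  obtain ⟨s, hs0, hs1, hs2⟩ := h
  have hc : Tendsto (fun y : ℂ => (1 - ε) * (Real.pi * (s + ‖y - y₀‖) ^ 2) ^ (d + 1)) (𝓝 y₀)
      (𝓝 ((1 - ε) * (Real.pi * (s + ‖y₀ - y₀‖) ^ 2) ^ (d + 1))) := by
    have h1 : Continuous (fun y : ℂ => (1 - ε) * (Real.pi * (s + ‖y - y₀‖) ^ 2) ^ (d + 1)) := by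
      fun_prop
    exact h1.tendsto y₀
  rw [sub_self, norm_zero, add_zero] at hc
  filter_upwards [hc.eventually_lt_const hs2, ball_mem_nhds y₀ (sub_pos.2 hs1)] with y h1 h2
  rw [mem_ball, dist_eq_norm] at h2
  refine ⟨s + ‖y - y₀‖, by linarith [norm_nonneg (y - y₀)], by linarith, h1.trans_le ?_⟩
  apply VV_mono
  apply closedBall_subset_closedBall'
  have := dist_centre (d := d) y₀ y
  rw [norm_sub_rev] at this
  linarith

theorem thick_residual (hd : 2 ≤ d) :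
    ∀ᶠ c₀ : frontier (multibrotSet d) in residual (frontier (multibrotSet d)),
      ∀ ε : ℝ, 0 < ε → ∃ᶠ r in 𝓝[>] (0 : ℝ),
        (1 - ε) * (Real.pi * r ^ 2) ^ (d + 1) < VV (OneSink d) (c₀ : ℂ) r := by
  have h1 : ∀ᶠ c₀ : frontier (multibrotSet d) in residual (frontier (multibrotSet d)),
      ∀ i k : ℕ, (c₀ : ℂ) ∈ Tk d (1 / ((i : ℝ) + 1)) (1 / ((k : ℝ) + 1)) := by
    rw [eventually_countable_forall]
    intro i
    rw [eventually_countable_forall]
    intro k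
    apply residual_of
    intro x hx r hr
    obtain ⟨y, h1, h2, h3⟩ := thick_dense hd hx hr (ε := 1 / ((k : ℝ) + 1))
      (δ := 1 / ((i : ℝ) + 1)) (by positivity) (by positivity)
    exact ⟨y, h1, h2, Tk_nhds h3⟩
  filter_upwards [h1] with c₀ hc₀ ε hε
  obtain ⟨k, hk⟩ := exists_nat_one_div_lt hε
  by_contra hcon
  rw [not_frequently] at hcon
  obtain ⟨δ, hδ, H⟩ := mem_nhdsGT_iff_exists_Ioc_subset.1 hcon
  obtain ⟨i, hi⟩ := exists_nat_one_div_lt (show 0 < δ from hδ)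
  obtain ⟨r, h2, h3, h4⟩ := hc₀ i k
  refine H ⟨h2, (h3.trans hi).le⟩ (lt_of_le_of_lt ?_ h4)
  have : 0 ≤ (Real.pi * r ^ 2) ^ (d + 1) := by positivity
  nlinarith

/-- the exponent -/
theorem lyapunov_of (hd : 2 ≤ d) {c₀ : ℂ} (h : Pool.Agent.Y298.CA.Lyap d (Real.log d) c₀) :
    Lyapunov d (Real.log d) c₀ := by
  obtain ⟨h1, h2, h3⟩ := h
  refine ⟨h1, h2, ?_, h3⟩
  rintro rfl rfl
  have h4 := Pool.Agent.Y272.GA.lyap_neg_two ⟨h1, h2, h3⟩
  have h5 := Real.log_injOn_pos (by norm_num : (((2 : ℕ) : ℝ)) ∈ Set.Ioi (0 : ℝ))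
    (by norm_num : (4 : ℝ) ∈ Set.Ioi (0 : ℝ)) h4
  norm_num at h5

theorem thin_lyapP (hd : 2 ≤ d) {χ : ℝ} {c₀ : ℂ} (h : Lyapunov d χ c₀) {σ : ℝ}
    (hσ : σ < 2 * ((d : ℝ) + 1) + 2 / ((d : ℝ) - 1)) :
    ∀ᶠ r in 𝓝[>] (0 : ℝ), VV (NonShift d) c₀ r < r ^ σ := by
  have hdR : (2 : ℝ) ≤ d := by exact_mod_cast hd
  have hd1 : 0 < (d : ℝ) - 1 := by linarith
  have hs := (scaling hd h (oneSink_sub.trans (conn_sub hd)) subset_rfl).1
  obtain ⟨σ', h1, h2⟩ := exists_between (max_lt hσ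
    (show (0 : ℝ) < 2 * ((d : ℝ) + 1) + 2 / ((d : ℝ) - 1) by positivity))
  have hσ' : σ < σ' := (le_max_left _ _).trans_lt h1
  have hσ0 : 0 < σ' := (le_max_right _ _).trans_lt h1
  have hr1 : ∀ᶠ r in 𝓝[>] (0 : ℝ), r < 1 := mem_nhdsWithin_of_mem_nhds (gt_mem_nhds one_pos)
  unfold Order at hs
  filter_upwards [hs.eventually_const_lt h2, hr1, self_mem_nhdsWithin] with r hr hr1 hr0
  have hr0' : 0 < r := hr0
  have hlog : Real.log r < 0 := Real.log_neg hr0' hr1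
  have hlt : r ^ σ' < r ^ σ := Real.rpow_lt_rpow_of_exponent_gt hr0' hr1 hσ'
  refine lt_of_le_of_lt ?_ hlt
  have hF : 0 ≤ VV (NonShift d) c₀ r := ENNReal.toReal_nonneg
  rcases hF.eq_or_lt with h3 | h3
  · rw [← h3]
    positivity
  · have h4 : σ' < Real.log (VV (NonShift d) c₀ r) / Real.log r := hr
    rw [lt_div_iff_of_neg hlog] at h4
    rw [← Real.log_le_log_iff h3 (by positivity), Real.log_rpow hr0']
    exact h4.le

/-- the parameters with a thin box -/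
def Tn (d : ℕ) (δ σ : ℝ) : Set ℂ := {c | ∃ r : ℝ, 0 < r ∧ r < δ ∧ VV (NonShift d) c r < r ^ σ}

theorem Tn_nhds {c₀ : ℂ} {δ σ σ' : ℝ} (hσ : σ < σ') (hδ : δ ≤ 1) (h : c₀ ∈ Tn d δ σ') :
    ∀ᶠ c in 𝓝 c₀, c ∈ Tn d δ σ := by
  obtain ⟨r, hr0, hr1, hr2⟩ := h
  have hlt : r ^ σ' < r ^ σ := Real.rpow_lt_rpow_of_exponent_gt hr0 (by linarith) hσ
  have hc : Tendsto (fun c : ℂ => (r - ‖c - c₀‖) ^ σ) (𝓝 c₀) (𝓝 ((r - ‖c₀ - c₀‖) ^ σ)) := by
    have h1 : ContinuousAt (fun c : ℂ => r - ‖c - c₀‖) c₀ := by fun_prop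
    apply ContinuousAt.rpow_const h1
    left
    simp only [sub_self, norm_zero, sub_zero]
    exact hr0.ne'
  rw [sub_self, norm_zero, sub_zero] at hc
  filter_upwards [hc.eventually_const_lt hlt, ball_mem_nhds c₀ hr0] with c h1 h2
  rw [mem_ball, dist_eq_norm] at h2
  refine ⟨r - ‖c - c₀‖, by linarith, by linarith [norm_nonneg (c - c₀)], ?_⟩
  refine lt_of_le_of_lt ?_ (hr2.trans h1)
  apply VV_mono
  apply closedBall_subset_closedBall'
  have := dist_centre (d := d) c c₀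
  linarith

theorem thin_residualP (hd : 2 ≤ d) :
    ∀ᶠ c₀ : frontier (multibrotSet d) in residual (frontier (multibrotSet d)),
      ∀ σ : ℝ, σ < 2 * ((d : ℝ) + 1) + 2 / ((d : ℝ) - 1) →
        ∃ᶠ r in 𝓝[>] (0 : ℝ), VV (NonShift d) (c₀ : ℂ) r < r ^ σ := by
  obtain ⟨E, hE⟩ : ∃ E, E = 2 * ((d : ℝ) + 1) + 2 / ((d : ℝ) - 1) := ⟨_, rfl⟩
  rw [← hE]
  have h1 : ∀ᶠ c₀ : frontier (multibrotSet d) in residual (frontier (multibrotSet d)),
      ∀ i k : ℕ, (c₀ : ℂ) ∈ Tn d (1 / ((i : ℝ) + 1)) (E - 1 / ((k : ℝ) + 1)) := by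
    rw [eventually_countable_forall]
    intro i
    rw [eventually_countable_forall]
    intro k
    apply residual_of
    intro x hx r hr
    obtain ⟨y, hy1, hy2, hy3⟩ := lyap_dense hd hx hr
    refine ⟨y, hy1, hy2, ?_⟩
    have hk : 0 < 1 / ((k : ℝ) + 1) := by positivity
    have hi1 : 1 / ((i : ℝ) + 1) ≤ 1 := by
      rw [div_le_one (by positivity)]
      linarith [(Nat.cast_nonneg i : (0 : ℝ) ≤ i)]
    apply Tn_nhds (σ' := E - 1 / ((k : ℝ) + 1) / 2) (by linarith) hi1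
    have h2 := thin_lyapP hd (lyapunov_of hd hy3) (σ := E - 1 / ((k : ℝ) + 1) / 2) (by
      rw [← hE]
      linarith)
    have h3 : ∀ᶠ r in 𝓝[>] (0 : ℝ), r < 1 / ((i : ℝ) + 1) :=
      mem_nhdsWithin_of_mem_nhds (gt_mem_nhds (by positivity))
    obtain ⟨r, h4, h5, h6⟩ := (h2.and (h3.and self_mem_nhdsWithin)).exists
    exact ⟨r, h6, h5, h4⟩
  filter_upwards [h1] with c₀ hc₀ σ hσ
  obtain ⟨k, hk⟩ := exists_nat_one_div_lt (show 0 < E - σ by linarith)
  by_contra hcon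
  rw [not_frequently] at hcon
  obtain ⟨δ, hδ, H⟩ := mem_nhdsGT_iff_exists_Ioc_subset.1 hcon
  obtain ⟨i, hi⟩ := exists_nat_one_div_lt (show 0 < δ from hδ)
  obtain ⟨r, h2, h3, h4⟩ := hc₀ i k
  refine H ⟨h2, (h3.trans hi).le⟩ (h4.trans_le ?_)
  have hi1 : 1 / ((i : ℝ) + 1) ≤ 1 := by
    rw [div_le_one (by positivity)]
    linarith [(Nat.cast_nonneg i : (0 : ℝ) ≤ i)]
  exact Real.rpow_le_rpow_of_exponent_ge h2 (by linarith) (by linarith)

/-- the proportion of `S` in the box of radius `r` about `z ^ d + y` -/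
noncomputable def prop (S : Set (Fin (d + 1) → ℂ)) (y : ℂ) (r : ℝ) : ℝ :=
  (volume (S ∩ closedBall (centre d y) r)).toReal / (volume (closedBall (centre d y) r)).toReal

theorem prop_cont (S : Set (Fin (d + 1) → ℂ)) (y : ℂ) : ContinuousOn (prop S y) (Ioi 0) := by
  have hG : Continuous fun r : ℝ => (Real.pi * r ^ 2) ^ (d + 1) := by fun_prop
  have hle : ∀ r s : ℝ, 0 < r → r ≤ s → VV S y r ≤ VV S y s ∧
      VV S y s ≤ VV S y r + ((Real.pi * s ^ 2) ^ (d + 1) - (Real.pi * r ^ 2) ^ (d + 1)) := by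
    intro r s hr hrs
    refine ⟨VV_mono (closedBall_subset_closedBall hrs), ?_⟩
    have hsub : closedBall (centre d y) r ⊆ closedBall (centre d y) s :=
      closedBall_subset_closedBall hrs
    have hfin : volume (closedBall (centre d y) s \ closedBall (centre d y) r) ≠ ⊤ :=
      ne_top_of_le_ne_top measure_closedBall_lt_top.ne (measure_mono sdiff_subset)
    have h1 : VV S y s ≤ VV S y r +
        (volume (closedBall (centre d y) s \ closedBall (centre d y) r)).toReal := by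
      unfold VV
      rw [← ENNReal.toReal_add (VV_fin _ _ _) hfin]
      apply ENNReal.toReal_mono (ENNReal.add_ne_top.2 ⟨VV_fin _ _ _, hfin⟩)
      refine (measure_mono ?_).trans (measure_union_le _ _)
      rintro a ⟨ha1, ha2⟩
      by_cases h : a ∈ closedBall (centre d y) r
      · exact Or.inl ⟨ha1, h⟩
      · exact Or.inr ⟨ha2, h⟩
    have h2 : (volume (closedBall (centre d y) s \ closedBall (centre d y) r)).toReal =
        (Real.pi * s ^ 2) ^ (d + 1) - (Real.pi * r ^ 2) ^ (d + 1) := by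
      rw [measure_sdiff hsub measurableSet_closedBall.nullMeasurableSet measure_closedBall_lt_top.ne,
        ENNReal.toReal_sub_of_le (measure_mono hsub) measure_closedBall_lt_top.ne,
        VV_univ y hr, VV_univ y (hr.trans_le hrs)]
    rwa [h2] at h1
  have hV : ContinuousOn (VV S y) (Ioi 0) := by
    rw [Metric.continuousOn_iff]
    intro r hr ε hε
    obtain ⟨δ, hδ, H⟩ := Metric.continuous_iff.1 hG r ε hε
    refine ⟨δ, hδ, fun s hs hsr => lt_of_le_of_lt ?_ (H s hsr)⟩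
    have hr0 : 0 < r := hr
    have hs0 : 0 < s := hs
    rw [Real.dist_eq, Real.dist_eq]
    rcases le_total r s with h | h
    · obtain ⟨h1, h2⟩ := hle r s hr0 h
      rw [abs_of_nonneg (by linarith), abs_of_nonneg (by linarith)]
      linarith
    · obtain ⟨h1, h2⟩ := hle s r hs0 h
      rw [abs_of_nonpos (by linarith), abs_of_nonpos (by linarith)]
      linarith
  have hW : ContinuousOn (fun r => (volume (closedBall (centre d y) r)).toReal) (Ioi 0) := by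
    refine hG.continuousOn.congr fun r hr => ?_
    exact VV_univ y hr
  refine hV.div hW fun r hr => ?_
  have hr0 : 0 < r := hr
  rw [VV_univ y hr0]
  positivity

/-- all cluster values -/
theorem cluster {S : Set (Fin (d + 1) → ℂ)} {y : ℂ}
    (hlow : ∀ ε : ℝ, 0 < ε → ∃ᶠ r in 𝓝[>] (0 : ℝ), prop S y r < ε)
    (hhigh : ∀ ε : ℝ, 0 < ε → ∃ᶠ r in 𝓝[>] (0 : ℝ), 1 - ε < prop S y r) {α : ℝ}
    (hα : α ∈ Icc (0 : ℝ) 1) : MapClusterPt α (𝓝[>] 0) (prop S y) := by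
  rw [mapClusterPt_iff_frequently]
  intro s hs
  have h1 : α ∈ closure (Ioo (0 : ℝ) 1) := by
    rw [closure_Ioo (by norm_num)]
    exact hα
  obtain ⟨β, hβs, hβ0, hβ1⟩ := mem_closure_iff_nhds.1 h1 s hs
  by_contra hcon
  rw [not_frequently] at hcon
  obtain ⟨δ, hδ, H⟩ := mem_nhdsGT_iff_exists_Ioo_subset.1 hcon
  have hmem : ∀ᶠ r in 𝓝[>] (0 : ℝ), r ∈ Ioo 0 δ := Ioo_mem_nhdsGT hδ
  obtain ⟨r₁, h2, h3⟩ := ((hlow β hβ0).and_eventually hmem).exists
  obtain ⟨r₂, h4, h5⟩ := ((hhigh (1 - β) (by linarith)).and_eventually hmem).exists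
  have hc : ContinuousOn (prop S y) (Ioo 0 δ) := (prop_cont S y).mono fun r hr => hr.1
  obtain ⟨r, hr1, hr2⟩ := isPreconnected_Ioo.intermediate_value h3 h5 hc
    ⟨h2.le, by linarith⟩
  apply H hr1
  rw [hr2]
  exact hβs

theorem prop_small (hd : 2 ≤ d) {S : Set (Fin (d + 1) → ℂ)} (hS : S ⊆ NonShift d) {y : ℂ} {ε : ℝ}
    (hε : 0 < ε) : ∀ᶠ r in 𝓝[>] (0 : ℝ),
      VV (NonShift d) y r < r ^ (2 * ((d : ℝ) + 1) + 1 / ((d : ℝ) - 1)) → prop S y r < ε := by
  have hdR : (2 : ℝ) ≤ d := by exact_mod_cast hd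
  have hd1 : 0 < (d : ℝ) - 1 := by linarith
  have hF : 0 < 1 / ((d : ℝ) - 1) := by positivity
  have h3 : Tendsto (fun r : ℝ => r ^ (1 / ((d : ℝ) - 1))) (𝓝[>] 0) (𝓝 (0 ^ (1 / ((d : ℝ) - 1)))) :=
    ((Real.continuousAt_rpow_const 0 _ (Or.inr hF.le)).tendsto).mono_left nhdsWithin_le_nhds
  rw [Real.zero_rpow hF.ne'] at h3
  filter_upwards [h3.eventually_lt_const hε, self_mem_nhdsWithin] with r hr hr0 hV
  have hr0' : 0 < r := hr0
  have hpi : (1 : ℝ) ≤ Real.pi ^ (d + 1) := one_le_pow₀ (by linarith [Real.pi_gt_three])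
  unfold prop
  rw [VV_univ y hr0', div_lt_iff₀ (by positivity)]
  have h4 : VV S y r ≤ VV (NonShift d) y r := VV_mono' hS y r
  refine (lt_of_le_of_lt h4 hV).trans_le ?_
  rw [Real.rpow_add hr0', mul_pow, ← pow_mul]
  have e1 : r ^ (2 * ((d : ℝ) + 1)) = r ^ (2 * (d + 1)) := by
    rw [← Real.rpow_natCast]
    congr 1
    push_cast
    ring
  rw [e1]
  calc r ^ (2 * (d + 1)) * r ^ (1 / ((d : ℝ) - 1)) ≤ r ^ (2 * (d + 1)) * ε := by gcongr
    _ = 1 * (ε * r ^ (2 * (d + 1))) := by ring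
    _ ≤ Real.pi ^ (d + 1) * (ε * r ^ (2 * (d + 1))) := by gcongr
    _ = _ := by ring

end Pool.Agent.Helper95.GP
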