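import Pool.Agent.Helper95.GP.Uni

set_option autoImplicit false

/-! # The shift of the centre is at most linear in the perturbation -/

namespace Pool.Agent.Helper95.GP

open Set Filter Metric MeasureTheory Topology
open Pool.Agent.TH279.MD Pool.Agent.Y298.SH Pool.Agent.Y298.SH.CD Pool.Agent.Y298.CA
open Pool.Agent.N253.MS Pool.Agent.N772.TC
open Pool.Agent.N772.FU hiding bb
open Pool.Agent.H712R2 (P P_succ)

theorem b_bound {d N : ℕ} (hd : 2 ≤ d) {c : ℂ} {M : ℝ} (hO : Orb N (aa d c) M)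
    (hb : ∀ j, ‖zz d c j‖ ≤ 2) (hz : zz d c N = 0) {p s : ℕ → ℂ} {σ : ℝ}
    (hp : ∀ i, ‖p i‖ ≤ σ) (hs : ∀ i, ‖s i‖ ≤ σ) (hσ : 20 * Kc d ^ 2 * M ^ 10 * σ ≤ 1)
    {b : ℂ} {X : ℕ → ℂ} (hX0 : X 0 = c + b) (hXN : X N = 0)
    (hX : ∀ j < N, X (j + 1) = Gs d p s (X j) + (c + b))
    (hXc : ∀ j, ‖X j - zz d c j‖ ≤ 4 * Kc d * M ^ 5 * σ) {C : ℝ}
    (hC1 : ∑ j ∈ Finset.range (N + 1), ‖(Dp (aa d c) j)⁻¹‖ ≤ C)
    (hC2 : 1 ≤ C * ‖∑ j ∈ Finset.range (N + 1), (Dp (aa d c) j)⁻¹‖) :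
    ‖b‖ ≤ 3 * Kc d * C ^ 2 * σ := by
  have hσ0 : 0 ≤ σ := (norm_nonneg _).trans (hp 0)
  have hK := Kc_ge hd
  obtain ⟨K, hKK⟩ : ∃ K, K = Kc d := ⟨_, rfl⟩
  rw [← hKK] at hK hσ hXc ⊢
  have hM1 := hO.hM
  have hM0 : 0 < M := by linarith
  have hK0 : 0 < K := by linarith
  have hM5 : 1 ≤ M ^ 5 := one_le_pow₀ hM1
  have hMM : M ^ 10 = M ^ 5 * M ^ 5 := by ring
  obtain ⟨ρ, hρ⟩ : ∃ ρ, ρ = 4 * K * M ^ 5 * σ := ⟨_, rfl⟩
  rw [← hρ] at hXc
  have hρ0 : 0 ≤ ρ := by rw [hρ]; positivity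
  have hσρ : σ ≤ K * M ^ 5 * σ := by
    have : 1 ≤ K * M ^ 5 := one_le_mul_of_one_le_of_one_le hK hM5
    exact le_mul_of_one_le_left hσ0 this
  have hmain : 4 * M ^ 5 * (K * (ρ + σ)) ≤ 1 := by
    calc 4 * M ^ 5 * (K * (ρ + σ)) ≤ 4 * M ^ 5 * (K * (4 * K * M ^ 5 * σ + K * M ^ 5 * σ)) := by
          rw [hρ]
          gcongr
      _ = 20 * K ^ 2 * M ^ 10 * σ := by rw [hMM]; ring
      _ ≤ 1 := hσ
  have hKρ : K * (ρ + σ) ≤ 1 / 4 := by
    have h2 : 4 * (K * (ρ + σ)) ≤ 4 * M ^ 5 * (K * (ρ + σ)) := by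
      gcongr
      linarith
    linarith
  have hρ1 : ρ ≤ 1 / 4 := by
    have h1 : ρ + σ ≤ K * (ρ + σ) := le_mul_of_one_le_left (by positivity) hK
    linarith
  have hKσ : Kc d * σ ≤ 1 / 2 := by
    rw [← hKK]
    have h1 : K * σ ≤ K * (ρ + σ) := by
      gcongr
      linarith
    linarith
  -- the second order term
  have hsec : K * (ρ + σ) * ρ ≤ K * σ := by
    have h1 : 4 * M ^ 5 * (K * (ρ + σ)) * (K * σ) ≤ 1 * (K * σ) := by gcongr
    have h2 : K * (ρ + σ) * ρ = 4 * M ^ 5 * (K * (ρ + σ)) * (K * σ) := by rw [hρ]; ring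
    linarith
  obtain ⟨x, hx⟩ : ∃ x : ℕ → ℂ, x = fun j => X j - zz d c j := ⟨_, rfl⟩
  obtain ⟨R, hR⟩ : ∃ R : ℕ → ℂ, R = fun j => Rr d p s (zz d c j) (x j) := ⟨_, rfl⟩
  have hxj : ∀ j, ‖x j‖ ≤ ρ := by rw [hx]; exact hXc
  have hRb : ∀ j, ‖R j‖ ≤ 2 * K * σ := by
    intro j
    have h1 := Rr_lip hd hp hs hKσ (hb j) (show ρ ≤ 2 by linarith) (hxj j)
      (show ‖(0 : ℂ)‖ ≤ ρ by simpa using hρ0)
    have h2 := Rr_zero hd hp hs hKσ (hb j)
    rw [sub_zero, ← hKK] at h1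
    rw [← hKK] at h2
    have h3 := norm_le_norm_add_norm_sub' (Rr d p s (zz d c j) (x j)) (Rr d p s (zz d c j) 0)
    have h4 : K * (ρ + σ) * ‖x j‖ ≤ K * (ρ + σ) * ρ := by
      gcongr
      exact hxj j
    rw [hR]
    show ‖Rr d p s (zz d c j) (x j)‖ ≤ _
    linarith
  have hstep : ∀ j < N, x (j + 1) = aa d c j * x j + b + R j := by
    intro j hj
    rw [hR, hx]
    simp only
    rw [hX j hj, zz_succ]
    unfold Rr aa
    have e1 : zz d c j + (X j - zz d c j) = X j := by ring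
    rw [e1]
    ring
  have htel : ∀ k ≤ N, x k * (Dp (aa d c) k)⁻¹ = x 0 +
      ∑ j ∈ Finset.range k, (b + R j) * (Dp (aa d c) (j + 1))⁻¹ := by
    intro k
    induction k with
    | zero =>
      intro _
      rw [Dp_zero]
      simp
    | succ k ih =>
      intro hk
      have ih' := ih (by omega)
      rw [Finset.sum_range_succ, ← add_assoc, ← ih', hstep k (by omega)]
      have h1 : Dp (aa d c) k ≠ 0 := hO.ne k (by omega)
      have h2 : Dp (aa d c) (k + 1) ≠ 0 := hO.ne (k + 1) hk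
      have h3 : aa d c k ≠ 0 := by
        intro h0
        apply h2
        rw [Dp_succ, h0, mul_zero]
      rw [Dp_succ]
      field_simp
      ring
  have hfin := htel N le_rfl
  have hxN : x N = 0 := by
    rw [hx]
    simp only
    rw [hXN, hz, sub_zero]
  have hx0 : x 0 = b := by
    rw [hx]
    simp only
    rw [hX0, zz_zero]
    ring
  rw [hxN, zero_mul, hx0] at hfin
  obtain ⟨T, hT⟩ : ∃ T, T = ∑ j ∈ Finset.range (N + 1), (Dp (aa d c) j)⁻¹ := ⟨_, rfl⟩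
  have hbT : b * T = -∑ j ∈ Finset.range N, R j * (Dp (aa d c) (j + 1))⁻¹ := by
    rw [hT, Finset.sum_range_succ', Dp_zero, inv_one, mul_add, mul_one, Finset.mul_sum]
    have e1 : ∑ j ∈ Finset.range N, (b + R j) * (Dp (aa d c) (j + 1))⁻¹ =
        ∑ j ∈ Finset.range N, b * (Dp (aa d c) (j + 1))⁻¹ +
          ∑ j ∈ Finset.range N, R j * (Dp (aa d c) (j + 1))⁻¹ := by
      rw [← Finset.sum_add_distrib]
      apply Finset.sum_congr rfl
      intro j _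
      ring
    rw [e1] at hfin
    linear_combination -hfin
  have hC0 : 0 ≤ C := le_trans (Finset.sum_nonneg fun _ _ => norm_nonneg _) hC1
  have hsum : ‖∑ j ∈ Finset.range N, R j * (Dp (aa d c) (j + 1))⁻¹‖ ≤ 2 * K * σ * C := by
    refine (norm_sum_le _ _).trans ?_
    have h1 : ∀ j ∈ Finset.range N, ‖R j * (Dp (aa d c) (j + 1))⁻¹‖ ≤
        2 * K * σ * ‖(Dp (aa d c) (j + 1))⁻¹‖ := by
      intro j _
      rw [norm_mul]
      gcongr
      exact hRb j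
    refine (Finset.sum_le_sum h1).trans ?_
    rw [← Finset.mul_sum]
    gcongr
    rw [Finset.sum_range_succ'] at hC1
    have : 0 ≤ ‖(Dp (aa d c) 0)⁻¹‖ := norm_nonneg _
    linarith
  rw [← hT] at hC2
  have h1 : ‖b‖ * ‖T‖ ≤ 2 * K * σ * C := by
    rw [← norm_mul, hbT, norm_neg]
    exact hsum
  calc ‖b‖ = ‖b‖ * 1 := (mul_one _).symm
    _ ≤ ‖b‖ * (C * ‖T‖) := by gcongr
    _ = C * (‖b‖ * ‖T‖) := by ring
    _ ≤ C * (2 * K * σ * C) := by gcongr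
    _ = 2 * K * C ^ 2 * σ := by ring
    _ ≤ 3 * K * C ^ 2 * σ := by
        gcongr
        norm_num

end Pool.Agent.Helper95.GP
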