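import Pool.Agent.Helper95.GP.Bdry
import Pool.Graph.R_seed8.Y273.EX.Fub

set_option autoImplicit false

/-! # The volume of the hyperbolic polynomials in an isotropic box about a boundary point -/

namespace Pool.Agent.Helper95.GP

open Set Filter Metric MeasureTheory Topology
open N62a1eb23
open Pool.Agent.Helper95.GB (Att ph cusp_thick vol_affine vol_ball_pi)
open Pool.Agent.H712R2 (fc P isCompact_multibrot)
open Pool.Agent.Y298.EX (OS crit_in K8 one_le_K8)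
open Pool.Agent.Y272.GA (FF dF differentiable_FF ee ee_zero ee_ne)

theorem slice_vol {K : Set ℂ} (hK : IsCompact K) {ts t' : ℂ} {r₀ ε' : ℝ} (hr₀ : 0 < r₀)
    (hvol : (1 - ε') * (Real.pi * r₀ ^ 2) < (volume (K ∩ ball ts r₀)).toReal) {s : ℝ} (hs : 0 ≤ s)
    (hsub : ball t' s ⊆ ball ts r₀) :
    Real.pi * s ^ 2 - ε' * (Real.pi * r₀ ^ 2) ≤ (volume (K ∩ ball ts r₀ ∩ ball t' s)).toReal := by
  have h1 : ball t' s ⊆ (K ∩ ball ts r₀ ∩ ball t' s) ∪ (ball ts r₀ \ (K ∩ ball ts r₀)) := by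
    intro t ht
    by_cases h : t ∈ K
    · exact Or.inl ⟨⟨h, hsub ht⟩, ht⟩
    · exact Or.inr ⟨hsub ht, fun h' => h h'.1⟩
  have hm : MeasurableSet (K ∩ ball ts r₀) := hK.measurableSet.inter measurableSet_ball
  have hfin : volume (K ∩ ball ts r₀) ≠ ⊤ :=
    ((measure_mono inter_subset_right).trans_lt measure_ball_lt_top).ne
  have hfin2 : volume (K ∩ ball ts r₀ ∩ ball t' s) ≠ ⊤ :=
    ((measure_mono inter_subset_right).trans_lt measure_ball_lt_top).ne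
  have hfin3 : volume (ball ts r₀ \ (K ∩ ball ts r₀)) ≠ ⊤ :=
    ((measure_mono sdiff_subset).trans_lt measure_ball_lt_top).ne
  have h2 : (volume (ball t' s)).toReal ≤ (volume (K ∩ ball ts r₀ ∩ ball t' s)).toReal +
      (volume (ball ts r₀ \ (K ∩ ball ts r₀))).toReal := by
    rw [← ENNReal.toReal_add hfin2 hfin3]
    apply ENNReal.toReal_mono (ENNReal.add_ne_top.2 ⟨hfin2, hfin3⟩)
    exact (measure_mono h1).trans (measure_union_le _ _)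
  have h3 : (volume (ball ts r₀ \ (K ∩ ball ts r₀))).toReal =
      (volume (ball ts r₀)).toReal - (volume (K ∩ ball ts r₀)).toReal := by
    rw [measure_sdiff inter_subset_right hm.nullMeasurableSet hfin,
      ENNReal.toReal_sub_of_le (measure_mono inter_subset_right) measure_ball_lt_top.ne]
  rw [h3, vol_ball_pi _ hs, vol_ball_pi _ hr₀.le] at h2
  nlinarith

/-- every slice of the box is nearly filled -/
theorem slice_slice {N : ℕ} {a : ℝ} (ha : 0 < a) (h : ((N : ℝ) + 2) * a ^ (N + 1) = 1) {C : ℝ}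
    (hC : 1 ≤ C) {ε : ℝ} (hε : 0 < ε) : ∃ ρ R₁ : ℝ, 0 < ρ ∧ 1 ≤ R₁ ∧ ∀ R : ℝ, R₁ ≤ R →
      ∀ (n : ℕ) (c m l y₀ : ℂ), 0 < n → CopyP (N + 2) C R n c m l → ‖y₀‖ ≤ 2 →
        ‖y₀ - (c + l * ph N a)‖ ≤ ‖l‖ * ρ → ∀ x : Fin (N + 2) → ℂ, ‖x‖ ≤ ρ * ‖l‖ →
          ENNReal.ofReal ((1 - ε) * (Real.pi * (ρ * ‖l‖) ^ 2)) ≤
            volume {t : ℂ | (Fin.cons t x : Fin (N + 2 + 1) → ℂ) ∈
              OS (N + 2) ∩ closedBall (ee (N + 2) y₀) (ρ * ‖l‖)} := by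
  have hpi := Real.pi_pos
  obtain ⟨d, hd⟩ : ∃ d, d = N + 2 := ⟨_, rfl⟩
  have hd2 : 2 ≤ d := by omega
  have hd2' : 2 ≤ N + 2 := by omega
  obtain ⟨ε', hε'⟩ : ∃ ε', ε' = ε / (4 * (5 * C + 4) ^ 2) := ⟨_, rfl⟩
  have hε'0 : 0 < ε' := by rw [hε']; positivity
  obtain ⟨K, r₀, hr₀, hK, -, hKA, hvol⟩ := cusp_thick ha h hε'0
  obtain ⟨R₀, η₀, hR₀, hη₀, HT⟩ := trap_main hd2' hK hKA
  obtain ⟨B, hB⟩ := hK.isBounded.exists_norm_le
  obtain ⟨ρ, hρ⟩ : ∃ ρ, ρ = r₀ / (5 * C + 4) := ⟨_, rfl⟩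
  have hρ0 : 0 < ρ := by rw [hρ]; positivity
  have hρr : (5 * C + 4) * ρ = r₀ := by rw [hρ]; field_simp
  have hK8 := one_le_K8 d
  obtain ⟨Q, hQ⟩ : ∃ Q, Q = (η₀ / 2) ^ (d - 1) := ⟨_, rfl⟩
  have hQ0 : 0 < Q := by rw [hQ]; positivity
  refine ⟨ρ, max (max 1 (max R₀ (1 / η₀))) (max (max |B| ρ) (max (K8 d * ρ * C / Q)
    (ρ * C * ((d : ℝ) + 1) ^ 2))), hρ0, (le_max_left _ _).trans (le_max_left _ _), ?_⟩
  intro R hR n c m l y₀ hn hcopy hy₀ hy₀l x hx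
  have hR1 : 1 ≤ R := ((le_max_left _ _).trans (le_max_left _ _)).trans hR
  have hRR₀ : R₀ ≤ R :=
    ((le_max_left _ _).trans ((le_max_right _ _).trans (le_max_left _ _))).trans hR
  have hRη : 1 / η₀ ≤ R :=
    ((le_max_right _ _).trans ((le_max_right _ _).trans (le_max_left _ _))).trans hR
  have hRB : |B| ≤ R :=
    ((le_max_left _ _).trans ((le_max_left _ _).trans (le_max_right _ _))).trans hR
  have hRρ : ρ ≤ R :=
    ((le_max_right _ _).trans ((le_max_left _ _).trans (le_max_right _ _))).trans hR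
  have hRK : K8 d * ρ * C / Q ≤ R :=
    ((le_max_left _ _).trans ((le_max_right _ _).trans (le_max_right _ _))).trans hR
  have hRd : ρ * C * ((d : ℝ) + 1) ^ 2 ≤ R :=
    ((le_max_right _ _).trans ((le_max_right _ _).trans (le_max_right _ _))).trans hR
  have hR0 : 0 < R := by linarith
  have hinv : 1 / R ≤ η₀ := by
    rw [div_le_iff₀ hη₀] at hRη
    rw [div_le_iff₀ hR0]
    linarith
  obtain ⟨hm, hl, hmR, hlm, H⟩ := hcopy
  have hm0 : 0 < ‖m‖ := norm_pos_iff.2 hm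
  have hl0 : 0 < ‖l‖ := norm_pos_iff.2 hl
  have hmR1 : ‖m‖ * R ≤ 1 := by rwa [le_div_iff₀ hR0] at hmR
  have hm1 : ‖m‖ ≤ 1 := hmR.trans (by rw [div_le_one hR0]; exact hR1)
  obtain ⟨σ, hσ⟩ : ∃ σ, σ = ρ * ‖l‖ := ⟨_, rfl⟩
  rw [← hσ] at hx ⊢
  have hσ0 : 0 < σ := by rw [hσ]; positivity
  have hlm' : ‖l‖ ≤ C * (‖m‖ ^ (d - 1) * ‖m‖) := by
    rw [← pow_succ, Nat.sub_add_cancel (by omega), hd]
    exact hlm
  -- the two smallness conditions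
  have hcrit : K8 d * σ ≤ (η₀ / 2 * ‖m‖) ^ (d - 1) := by
    rw [mul_pow, ← hQ]
    rw [div_le_iff₀ hQ0] at hRK
    have h2 : (K8 d * ρ * C) * ‖m‖ ≤ Q := by
      calc (K8 d * ρ * C) * ‖m‖ ≤ (R * Q) * ‖m‖ := by gcongr
        _ = (‖m‖ * R) * Q := by ring
        _ ≤ 1 * Q := by gcongr
        _ = Q := one_mul _
    calc K8 d * σ ≤ K8 d * (ρ * (C * (‖m‖ ^ (d - 1) * ‖m‖))) := by
          rw [hσ]
          gcongr
      _ = (K8 d * ρ * C) * ‖m‖ * ‖m‖ ^ (d - 1) := by ring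
      _ ≤ Q * ‖m‖ ^ (d - 1) := by gcongr
  have hσd : σ * ((d : ℝ) + 1) ^ 2 ≤ 1 := by
    have h1 : ‖m‖ ^ (d - 1) * ‖m‖ ≤ 1 * ‖m‖ := by
      gcongr
      exact pow_le_one₀ (norm_nonneg m) hm1
    calc σ * ((d : ℝ) + 1) ^ 2 ≤ (ρ * (C * (1 * ‖m‖))) * ((d : ℝ) + 1) ^ 2 := by
          rw [hσ]
          gcongr
          exact hlm'.trans (by gcongr)
      _ = (ρ * C * ((d : ℝ) + 1) ^ 2) * ‖m‖ := by ring
      _ ≤ R * ‖m‖ := by gcongr
      _ ≤ 1 := by linarith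
  obtain ⟨κ, b, hκ1, hκ2, hb, hmain⟩ := H σ (by rw [hσ]; gcongr) x hx
  have hκu : ‖κ‖ ≤ 3 / 2 := by
    have := norm_add_le (κ - 1) 1
    rw [sub_add_cancel, norm_one] at this
    linarith
  have hκl : 1 / 2 ≤ ‖κ‖ := by
    have := norm_sub_norm_le (1 : ℂ) κ
    rw [norm_one, norm_sub_rev] at this
    linarith
  have hκ0 : κ ≠ 0 := by
    rintro rfl
    rw [norm_zero] at hκl
    linarith
  have hκp : 0 < ‖κ‖ := by linarith
  obtain ⟨t', ht'⟩ : ∃ t', t' = (y₀ / κ - c - b) / l := ⟨_, rfl⟩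
  have hkey : κ * (c + (b + l * t')) = y₀ := by
    rw [ht']
    field_simp
    ring
  have ht's : ‖t' - ph N a‖ ≤ (5 * C + 1) * ρ := by
    have e1 : l * (t' - ph N a) = (y₀ - (c + l * ph N a)) + y₀ * (1 - κ) / κ - b := by
      have e2 : l * t' = y₀ / κ - c - b := by
        rw [ht']
        field_simp
      rw [mul_sub, e2]
      field_simp
      ring
    have e3 : ‖y₀ * (1 - κ) / κ‖ ≤ 4 * C * σ := by
      rw [norm_div, norm_mul, div_le_iff₀ hκp, norm_sub_rev]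
      calc ‖y₀‖ * ‖κ - 1‖ ≤ 2 * (C * σ) := by gcongr
        _ = 4 * C * σ * (1 / 2) := by ring
        _ ≤ 4 * C * σ * ‖κ‖ := by gcongr
    have e4 : ‖l‖ * ‖t' - ph N a‖ ≤ ‖l‖ * ((5 * C + 1) * ρ) := by
      rw [← norm_mul, e1]
      calc ‖(y₀ - (c + l * ph N a)) + y₀ * (1 - κ) / κ - b‖ ≤
            ‖y₀ - (c + l * ph N a)‖ + ‖y₀ * (1 - κ) / κ‖ + ‖b‖ :=
            (norm_sub_le _ _).trans (add_le_add (norm_add_le _ _) le_rfl)
        _ ≤ ‖l‖ * ρ + 4 * C * σ + C * σ := by gcongr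
        _ = ‖l‖ * ((5 * C + 1) * ρ) := by rw [hσ]; ring
    exact le_of_mul_le_mul_left e4 hl0
  obtain ⟨s, hs⟩ : ∃ s, s = ρ / ‖κ‖ := ⟨_, rfl⟩
  have hs0 : 0 < s := by rw [hs]; positivity
  have hs2 : s ≤ 2 * ρ := by
    rw [hs, div_le_iff₀ hκp]
    nlinarith
  have hsub : ball t' s ⊆ ball (ph N a) r₀ := by
    apply ball_subset_ball'
    rw [dist_eq_norm, ← hρr]
    nlinarith
  obtain ⟨A, hA⟩ : ∃ A, A = K ∩ ball (ph N a) r₀ ∩ ball t' s := ⟨_, rfl⟩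
  have hAvol := slice_vol hK hr₀ hvol hs0.le hsub
  rw [← hA] at hAvol
  have himg : (fun w : ℂ => κ * (c + b) + (κ * l) * w) '' A ⊆
      {t : ℂ | (Fin.cons t x : Fin (N + 2 + 1) → ℂ) ∈
        OS (N + 2) ∩ closedBall (ee (N + 2) y₀) σ} := by
    rintro _ ⟨t, ht, rfl⟩
    rw [hA] at ht
    obtain ⟨⟨htK, -⟩, htt⟩ := ht
    rw [mem_ball, dist_eq_norm] at htt
    obtain ⟨k, hk⟩ : ∃ k, k = κ * (c + (b + l * t)) := ⟨_, rfl⟩
    have hk' : κ * (c + b) + κ * l * t = k := by rw [hk]; ring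
    show (Fin.cons (κ * (c + b) + κ * l * t) x : Fin (N + 2 + 1) → ℂ) ∈
      OS (N + 2) ∩ closedBall (ee (N + 2) y₀) σ
    rw [hk']
    obtain ⟨W, hW⟩ : ∃ W : Fin (N + 2 + 1) → ℂ, W = Fin.cons k x := ⟨_, rfl⟩
    rw [← hW]
    have hWi : ∀ i, i ≠ 0 → ‖W i‖ ≤ σ := by
      intro i
      refine Fin.cases ?_ (fun j => ?_) i
      · intro h3
        exact absurd rfl h3
      · intro _
        rw [hW, Fin.cons_succ]
        exact (norm_le_pi_norm x j).trans hx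
    refine ⟨?_, ?_⟩
    · apply os_of (η₀ := η₀) (mul_ne_zero hκ0 hm) hn
      · apply HT t htK
        intro z hz
        have htR : ‖t‖ ≤ R := (hB t htK).trans ((le_abs_self B).trans hRB)
        have e1 := hmain t z htR (hz.trans hRR₀)
        rw [← hk, ← hW] at e1
        have hκm : κ * m ≠ 0 := mul_ne_zero hκ0 hm
        have e2 : (FF (N + 2) W)^[n] (κ * m * z) / (κ * m) - (z ^ (N + 2) + t) =
            ((FF (N + 2) W)^[n] (κ * m * z) - κ * m * (z ^ (N + 2) + t)) / (κ * m) := by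
          field_simp
        rw [e2, norm_div, div_le_iff₀ (norm_pos_iff.2 hκm)]
        refine e1.trans ?_
        rw [mul_comm]
        gcongr
      · intro ω hω
        refine crit_in hd2' hWi (by positivity) hσ0.le ?_ ?_ hω
        · rw [← hd]
          refine hcrit.trans ?_
          apply pow_le_pow_left₀ (by positivity)
          rw [norm_mul]
          nlinarith [mul_pos hη₀ hm0]
        · rw [← hd]
          exact hσd
    · rw [mem_closedBall, dist_eq_norm, pi_norm_le_iff_of_nonneg hσ0.le]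
      intro i
      refine Fin.cases ?_ (fun j => ?_) i
      · rw [Pi.sub_apply, hW, Fin.cons_zero, ee_zero, hk]
        have e1 : κ * (c + (b + l * t)) - y₀ = κ * l * (t - t') := by
          linear_combination hkey
        rw [e1, norm_mul, norm_mul]
        calc ‖κ‖ * ‖l‖ * ‖t - t'‖ ≤ ‖κ‖ * ‖l‖ * s := by gcongr
          _ = σ := by
              rw [hs, hσ]
              field_simp
      · rw [Pi.sub_apply, ee_ne _ _ (Fin.succ_ne_zero j), sub_zero]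
        exact hWi _ (Fin.succ_ne_zero j)
  refine le_trans ?_ (measure_mono himg)
  refine le_trans ?_ ENNReal.ofReal_toReal_le
  apply ENNReal.ofReal_le_ofReal
  rw [vol_affine]
  have e1 : (5 * C + 4) ^ 2 * ε' = ε / 4 := by
    rw [hε']
    field_simp
  have e2 : ‖κ * l‖ ^ 2 * (Real.pi * s ^ 2 - ε' * (Real.pi * r₀ ^ 2)) =
      Real.pi * σ ^ 2 * (1 - ‖κ‖ ^ 2 * ((5 * C + 4) ^ 2 * ε')) := by
    rw [norm_mul, hs, hσ, ← hρr]
    field_simp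
  calc (1 - ε) * (Real.pi * σ ^ 2) = Real.pi * σ ^ 2 * (1 - ε) := by ring
    _ ≤ Real.pi * σ ^ 2 * (1 - ‖κ‖ ^ 2 * ((5 * C + 4) ^ 2 * ε')) := by
        gcongr
        rw [e1]
        have : ‖κ‖ ^ 2 ≤ (3 / 2) ^ 2 := by gcongr
        nlinarith
    _ = ‖κ * l‖ ^ 2 * (Real.pi * s ^ 2 - ε' * (Real.pi * r₀ ^ 2)) := e2.symm
    _ ≤ ‖κ * l‖ ^ 2 * (volume A).toReal := by gcongr

theorem slice_main {N : ℕ} {a : ℝ} (ha : 0 < a) (h : ((N : ℝ) + 2) * a ^ (N + 1) = 1) {C : ℝ}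
    (hC : 1 ≤ C) {ε : ℝ} (hε : 0 < ε) : ∃ ρ R₁ : ℝ, 0 < ρ ∧ 1 ≤ R₁ ∧ ∀ R : ℝ, R₁ ≤ R →
      ∀ (n : ℕ) (c m l y₀ : ℂ), 0 < n → CopyP (N + 2) C R n c m l → ‖y₀‖ ≤ 2 →
        ‖y₀ - (c + l * ph N a)‖ ≤ ‖l‖ * ρ →
        ENNReal.ofReal ((1 - ε) * (Real.pi * (ρ * ‖l‖) ^ 2) ^ (N + 2 + 1)) ≤
          volume (OS (N + 2) ∩ closedBall (ee (N + 2) y₀) (ρ * ‖l‖)) := by
  have hpi := Real.pi_pos
  obtain ⟨ρ, R₁, hρ, hR₁, HS⟩ := slice_slice ha h hC hε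
  refine ⟨ρ, R₁, hρ, hR₁, fun R hR n c m l y₀ hn hcopy hy₀ hy₀l => ?_⟩
  have hsl := HS R hR n c m l y₀ hn hcopy hy₀ hy₀l
  have hl0 : 0 < ‖l‖ := norm_pos_iff.2 hcopy.2.1
  obtain ⟨σ, hσ⟩ : ∃ σ, σ = ρ * ‖l‖ := ⟨_, rfl⟩
  rw [← hσ] at hsl ⊢
  have hσ0 : 0 < σ := by rw [hσ]; positivity
  by_cases hε1 : 1 ≤ ε
  · have : (1 - ε) * (Real.pi * σ ^ 2) ^ (N + 2 + 1) ≤ 0 :=
      mul_nonpos_of_nonpos_of_nonneg (by linarith) (by positivity)
    rw [ENNReal.ofReal_eq_zero.2 this]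
    exact bot_le
  rw [not_le] at hε1
  have hfub := Pool.Agent.Y273.EX.t_fub (N + 2) (OS (N + 2) ∩ closedBall (ee (N + 2) y₀) σ) σ
    ((1 - ε) * (Real.pi * σ ^ 2)) hσ0 (mul_nonneg (by linarith) (by positivity)) hsl
  refine le_trans (le_of_eq ?_) hfub
  rw [← ENNReal.ofReal_mul (mul_nonneg (by linarith) (by positivity))]
  congr 1
  rw [pow_succ (Real.pi * σ ^ 2) (N + 2)]
  ring

end Pool.Agent.Helper95.GP
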