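import Pool.Graph.R_pool_sql_team_seeded_63374d34.N772.FU.Num
import Pool.Graph.R_seed8.Y298.CD.Trn

set_option autoImplicit false

/-! # Uniform bounds for the sums of the inverse derivatives at the centres near `c₀` -/

namespace Pool.Agent.Helper95.GP

open Set Filter Metric MeasureTheory Topology
open Pool.Agent.TH279.MD Pool.Agent.Y298.SH Pool.Agent.Y298.SH.CD Pool.Agent.Y298.CA
open Pool.Agent.N253.MS Pool.Agent.N772.TC
open Pool.Agent.N772.FU hiding bb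
open Pool.Agent.H712R2 (P P_succ)

/-- domination -/
theorem dom {d : ℕ} (hd : 2 ≤ d) {χ : ℝ} {c₀ : ℂ} (h : Lyap d χ c₀) :
    ∃ δ : ℝ, 0 < δ ∧ δ < χ ∧ ∀ᶠ n : ℕ in atTop, ∀ c' : ℂ, P d n c' = 0 →
      ‖c' - c₀‖ ≤ Real.exp (-((χ - δ) * n)) → ∀ j < n,
        (Pd d c' j)⁻¹ ≤ 2 * (Pd d c₀ j)⁻¹ + Real.exp (-(χ / 4 * j)) := by
  have hχ : 0 < χ := h.1
  obtain ⟨κ, hκ⟩ : ∃ κ, κ = χ / 10 := ⟨_, rfl⟩
  have hκ0 : 0 < κ := by rw [hκ]; positivity
  obtain ⟨⟨C₁, lam, hc⟩, hlya⟩ := Pool.Agent.Y674.CA.lya d χ c₀ hd h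
  obtain ⟨C₂, hC₂1, hC₂⟩ := hlya κ hκ0
  have hC₂0 : 0 < C₂ := by linarith
  obtain ⟨B, Ca, hPC⟩ := Pool.Agent.Y434.CA.pa d C₁ lam (Real.exp κ) hd hc.C1 hc.lam1
    (Real.one_lt_exp_iff.mpr hκ0)
  have hB1 : 1 ≤ B := hPC.Ca1.trans hPC.CaB
  have hB0 : 0 < B := by linarith
  obtain ⟨δ₁, hδ₁, H⟩ := seq_law hd h (ε := χ / 4) (by positivity)
  refine ⟨min κ δ₁, lt_min hκ0 hδ₁, (min_le_left _ _).trans_lt (by rw [hκ]; linarith), ?_⟩
  filter_upwards [H, ev_lin (show 0 < χ / 4 by positivity) (Real.log (B * C₂ ^ 2)),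
    eventually_ge_atTop 1] with n hn1 hn2 hn c' hPc hcc j hj
  have hn0 : (1 : ℝ) ≤ n := by exact_mod_cast hn
  have hcs0 : ‖c' - c₀‖ ≤ Real.exp (-((χ - δ₁) * n)) := hcc.trans (Real.exp_le_exp.2 (by
    have : (χ - δ₁) * n ≤ (χ - min κ δ₁) * n := by
      gcongr
      exact min_le_right _ _
    linarith))
  obtain ⟨s, hs⟩ : ∃ s : ℝ, s = Real.exp (-((χ - κ) * n)) := ⟨_, rfl⟩
  have hs0 : 0 < s := by rw [hs]; exact Real.exp_pos _
  have hcs : ‖c' - c₀‖ ≤ s := by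
    rw [hs]
    refine hcc.trans (Real.exp_le_exp.2 ?_)
    have : (χ - κ) * n ≤ (χ - min κ δ₁) * n := by
      gcongr
      exact min_le_left _ _
    linarith
  have hjn : (j : ℝ) ≤ n := by exact_mod_cast hj.le
  have hj0 : (0 : ℝ) ≤ j := Nat.cast_nonneg j
  by_cases hj2 : 2 * j ≤ n
  · -- the first half
    have hpass := hPC.pass c₀ hc c' s j hs0 hcs (by
      intro i hi
      obtain ⟨-, g2, g3⟩ := hC₂ i
      have hi2 : (2 : ℝ) * i ≤ n := by exact_mod_cast (by omega : 2 * i ≤ n)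
      have hi0 : (0 : ℝ) ≤ i := Nat.cast_nonneg i
      have e1 : B * Real.exp κ ^ i * s * Pd d c₀ i ≤
          B * Real.exp κ ^ i * s * (C₂ * Real.exp ((χ + κ) * i)) := by gcongr
      have e2 : (C₂ * Real.exp (κ * i)) * (B * Real.exp κ ^ i * s * (C₂ * Real.exp ((χ + κ) * i))) =
          Real.exp (Real.log (B * C₂ ^ 2) + κ * i + κ * i - (χ - κ) * n + (χ + κ) * i) := by
        rw [sub_eq_add_neg, Real.exp_add, Real.exp_add, Real.exp_add, Real.exp_add,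
          Real.exp_log (by positivity), ← Real.exp_nat_mul, hs, mul_comm (i : ℝ) κ]
        ring
      have e3 : Real.exp (Real.log (B * C₂ ^ 2) + κ * i + κ * i - (χ - κ) * n + (χ + κ) * i) ≤ 1 := by
        rw [Real.exp_le_one_iff]
        have : (χ + 3 * κ) * (2 * i) ≤ (χ + 3 * κ) * n := by gcongr
        rw [hκ] at this ⊢
        nlinarith
      have e4 : 0 < C₂ * Real.exp (κ * i) := by positivity
      have e5 : (C₂ * Real.exp (κ * i)) * (B * Real.exp κ ^ i * s * Pd d c₀ i) ≤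
          (C₂ * Real.exp (κ * i)) * ‖zz d c₀ i‖ := by
        calc _ ≤ (C₂ * Real.exp (κ * i)) * (B * Real.exp κ ^ i * s *
              (C₂ * Real.exp ((χ + κ) * i))) := by gcongr
          _ ≤ 1 := by rw [e2]; exact e3
          _ ≤ _ := g3
      exact le_of_mul_le_mul_left e5 e4) c' (mem_ball_self hs0) j le_rfl
    obtain ⟨-, p2, -⟩ := hpass
    have h1 : 0 < Pd d c₀ j := hc.Pd_pos j
    have h2 : Pd d c₀ j / 2 ≤ Pd d c' j := p2
    have h3 : (Pd d c' j)⁻¹ ≤ (Pd d c₀ j / 2)⁻¹ := inv_anti₀ (by positivity) h2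
    rw [inv_div] at h3
    have h4 : 2 / Pd d c₀ j = 2 * (Pd d c₀ j)⁻¹ := by ring
    have h5 := Real.exp_pos (-(χ / 4 * j))
    linarith
  · -- the second half
    obtain ⟨h1, -⟩ := hn1 c' hPc hcs0 j (by omega)
    have hj3 : (n : ℝ) ≤ 2 * j := by exact_mod_cast (by omega : n ≤ 2 * j)
    have h2 : Real.exp (χ / 4 * j) ≤ Pd d c' j := by
      refine le_trans (Real.exp_le_exp.2 ?_) h1
      have : χ / 4 * n ≤ χ / 4 * (2 * j) := by gcongr
      nlinarith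
    have h3 : (Pd d c' j)⁻¹ ≤ (Real.exp (χ / 4 * j))⁻¹ := inv_anti₀ (Real.exp_pos _) h2
    rw [← Real.exp_neg] at h3
    have h4 : 0 ≤ (Pd d c₀ j)⁻¹ := by
      have := hc.Pd_pos j
      positivity
    linarith

/-- the bound is summable -/
theorem sum_exp {a : ℝ} (ha : 0 < a) : Summable fun j : ℕ => Real.exp (-(a * j)) := by
  have h1 : (fun j : ℕ => Real.exp (-(a * j))) = fun j : ℕ => Real.exp (-a) ^ j := by
    funext j
    rw [← Real.exp_nat_mul]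
    congr 1
    ring
  rw [h1]
  apply summable_geometric_of_lt_one (Real.exp_pos _).le
  rw [Real.exp_lt_one_iff]
  linarith

/-- **Uniform bounds.** -/
theorem uni {d : ℕ} (hd : 2 ≤ d) {χ : ℝ} {c₀ : ℂ} (h : Lyap d χ c₀) :
    ∃ C δ : ℝ, 1 ≤ C ∧ 0 < δ ∧ δ < χ ∧ ∀ᶠ n : ℕ in atTop, ∀ c' : ℂ, P d n c' = 0 →
      ‖c' - c₀‖ ≤ Real.exp (-((χ - δ) * n)) →
        ∑ j ∈ Finset.range n, ‖bb d c' j‖ ≤ C ∧
        1 ≤ C * ‖∑ j ∈ Finset.range n, bb d c' j‖ := by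
  have hχ : 0 < χ := h.1
  obtain ⟨⟨C₁, lam, hc⟩, -⟩ := Pool.Agent.Y674.CA.lya d χ c₀ hd h
  obtain ⟨δ, hδ, hδχ, H⟩ := dom hd h
  obtain ⟨g, hg⟩ : ∃ g : ℕ → ℝ, g = fun j => 2 * (Pd d c₀ j)⁻¹ + Real.exp (-(χ / 4 * j)) := ⟨_, rfl⟩
  have hg0 : ∀ j, 0 ≤ g j := by
    intro j
    rw [hg]
    have := hc.Pd_pos j
    positivity
  have hgs : Summable g := by
    rw [hg]
    have h1 := hc.summable_bb
    simp only [norm_bb] at h1
    exact (h1.mul_left 2).add (sum_exp (by positivity))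
  have hT := hc.trans
  obtain ⟨τ, hτ⟩ : ∃ τ, τ = ‖∑' n, bb d c₀ n‖ := ⟨_, rfl⟩
  have hτ0 : 0 < τ := by rw [hτ]; exact norm_pos_iff.2 hT
  -- the filter
  obtain ⟨A, hA⟩ : ∃ A : Set (ℕ × ℂ), A = {x | P d x.1 x.2 = 0 ∧
    ‖x.2 - c₀‖ ≤ Real.exp (-((χ - δ) * x.1))} := ⟨_, rfl⟩
  obtain ⟨𝓕, hF⟩ : ∃ 𝓕 : Filter (ℕ × ℂ), 𝓕 = (atTop ×ˢ 𝓟 univ) ⊓ 𝓟 A := ⟨_, rfl⟩
  have hev : ∀ p : ℕ × ℂ → Prop, (∀ᶠ x in 𝓕, p x) ↔ ∀ᶠ n : ℕ in atTop, ∀ c' : ℂ,
      P d n c' = 0 → ‖c' - c₀‖ ≤ Real.exp (-((χ - δ) * n)) → p (n, c') := by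
    intro p
    rw [hF, eventually_inf_principal, eventually_prod_principal_iff, hA]
    apply eventually_congr
    apply Eventually.of_forall
    intro n
    constructor
    · intro h1 c' h2 h3
      exact h1 c' (mem_univ _) ⟨h2, h3⟩
    · intro h1 c' _ h2
      exact h1 c' h2.1 h2.2
  have hn : Tendsto (fun x : ℕ × ℂ => x.1) 𝓕 atTop := by
    rw [Filter.tendsto_atTop]
    intro N
    rw [hev]
    filter_upwards [eventually_ge_atTop N] with n hn c' _ _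
    exact hn
  have hc' : Tendsto (fun x : ℕ × ℂ => x.2) 𝓕 (𝓝 c₀) := by
    rw [tendsto_iff_norm_sub_tendsto_zero]
    have h1 : Tendsto (fun x : ℕ × ℂ => Real.exp (-((χ - δ) * x.1))) 𝓕 (𝓝 0) := by
      apply Real.tendsto_exp_neg_atTop_nhds_zero.comp
      exact Tendsto.const_mul_atTop (sub_pos.2 hδχ) (tendsto_natCast_atTop_atTop.comp hn)
    apply squeeze_zero' (Eventually.of_forall fun _ => norm_nonneg _) _ h1
    rw [hev]
    exact Eventually.of_forall fun n c' _ h => h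
  obtain ⟨F, hFd⟩ : ∃ F : ℕ × ℂ → ℕ → ℂ, F = fun (x : ℕ × ℂ) (j : ℕ) =>
    if j < x.1 then bb d x.2 j else 0 := ⟨_, rfl⟩
  have hFs : ∀ x, ∑' j, F x j = ∑ j ∈ Finset.range x.1, bb d x.2 j := by
    intro x
    rw [tsum_eq_sum (s := Finset.range x.1)]
    · apply Finset.sum_congr rfl
      intro j hj
      rw [Finset.mem_range] at hj
      rw [hFd]
      simp only
      rw [if_pos hj]
    · intro j hj
      rw [Finset.mem_range] at hj
      rw [hFd]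
      simp only
      rw [if_neg hj]
  have hbd : ∀ᶠ x in 𝓕, ∀ j, ‖F x j‖ ≤ g j := by
    rw [hev]
    filter_upwards [H] with n hn c' h1 h2 j
    rw [hFd]
    simp only
    split_ifs with hj
    · rw [norm_bb, hg]
      exact hn c' h1 h2 j hj
    · rw [norm_zero]
      exact hg0 j
  have hlim : Tendsto (fun x => ∑' j, F x j) 𝓕 (𝓝 (∑' j, bb d c₀ j)) := by
    apply tendsto_tsum_of_dominated_convergence hgs _ hbd
    intro j
    have h1 : Tendsto (fun x : ℕ × ℂ => bb d x.2 j) 𝓕 (𝓝 (bb d c₀ j)) := by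
      unfold bb
      apply Tendsto.inv₀
      · have h2 := (contDiff_deriv d j).continuous
        have h3 : Continuous fun c : ℂ => deriv ((f d c)^[j]) c :=
          h2.comp (continuous_id.prodMk continuous_id)
        exact (h3.tendsto c₀).comp hc'
      · have := hc.Pd_pos j
        exact norm_pos_iff.1 this
    apply h1.congr'
    filter_upwards [hn.eventually_gt_atTop j] with x hx
    rw [hFd]
    simp only
    rw [if_pos hx]
  have hlow : ∀ᶠ x in 𝓕, τ / 2 < ‖∑' j, F x j‖ := by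
    apply hlim.norm.eventually_const_lt
    rw [← hτ]
    linarith
  rw [hev] at hlow hbd
  refine ⟨max (max 1 (∑' j, g j)) (2 / τ), δ, (le_max_left _ _).trans (le_max_left _ _), hδ, hδχ, ?_⟩
  filter_upwards [hlow, hbd] with n h1 h2 c' h3 h4
  have h5 := h1 c' h3 h4
  have h6 := h2 c' h3 h4
  rw [hFs] at h5
  constructor
  · refine le_trans ?_ ((le_max_right _ _).trans (le_max_left _ _))
    refine le_trans ?_ (hgs.sum_le_tsum (Finset.range n) fun j _ => hg0 j)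
    apply Finset.sum_le_sum
    intro j hj
    rw [Finset.mem_range] at hj
    have h7 := h6 j
    rw [hFd] at h7
    simp only at h7
    rwa [if_pos hj] at h7
  · have h7 : 2 / τ * (τ / 2) = 1 := by field_simp
    rw [← h7]
    gcongr
    exact le_max_right _ _

end Pool.Agent.Helper95.GP
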